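import Pool.Agent.H921.QP.Defs

/-!
# Quasi-spherical data: pointwise algebra
-/

set_option autoImplicit false

namespace Pool.Agent.H921.QP

open Filter Topology MeasureTheory Pool.Agent.N795.PI Pool.Agent.N774.PIA

lemma alg_ineq (a : Fin 3 → Fin 3 → ℝ) (ha : ∀ i j, a i j = a j i) (x : Fin 3 → ℝ) (S l : ℝ)
    (hS : S = x 0 ^ 2 + x 1 ^ 2 + x 2 ^ 2) (hS0 : S ≠ 0)
    (hl : l = (∑ i, ∑ j, a i j * x i * x j) / S) :
    ((∑ i, a i i) - l) ^ 2 / 2 ≤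
      (∑ i, ∑ j, a i j ^ 2) - 2 * (∑ i, (∑ j, a i j * x j) ^ 2) / S + l ^ 2 := by
  have h10 := ha 1 0
  have h20 := ha 2 0
  have h21 := ha 2 1
  have key : (∑ i, ∑ j, a i j ^ 2) - 2 * (∑ i, (∑ j, a i j * x j) ^ 2) / S + l ^ 2
      - ((∑ i, a i i) - l) ^ 2 / 2 =
      ∑ i, ∑ j, (a i j - (x i * (∑ k, a j k * x k) + (∑ k, a i k * x k) * x j) / S
        + l * (x i * x j / S) - ((∑ k, a k k) - l) / 2 * ((if i = j then 1 else 0)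
          - x i * x j / S)) ^ 2 := by
    have hl' : l * S = ∑ i, ∑ j, a i j * x i * x j := by
      rw [hl, div_mul_cancel₀ _ hS0]
    simp only [Fin.sum_univ_three, Fin.isValue] at hl' ⊢
    rw [h10, h20, h21] at hl' ⊢
    have e01 : ((0 : Fin 3) = 1) = False := by simp
    have e02 : ((0 : Fin 3) = 2) = False := by simp
    have e12 : ((1 : Fin 3) = 2) = False := by simp
    have e10 : ((1 : Fin 3) = 0) = False := by simp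
    have e20 : ((2 : Fin 3) = 0) = False := by simp
    have e21 : ((2 : Fin 3) = 1) = False := by simp
    simp only [e01, e02, e12, e10, e20, e21, if_true, if_false]
    rw [hl]
    simp only [Fin.sum_univ_three, Fin.isValue]
    rw [h10, h20, h21]
    subst hS
    field_simp
    ring
  have h0 : 0 ≤ ∑ i, ∑ j, (a i j - (x i * (∑ k, a j k * x k) + (∑ k, a i k * x k) * x j) / S
        + l * (x i * x j / S) - ((∑ k, a k k) - l) / 2 * ((if i = j then 1 else 0)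
          - x i * x j / S)) ^ 2 :=
    Finset.sum_nonneg fun i _ => Finset.sum_nonneg fun j _ => sq_nonneg _
  linarith

lemma quad_sum (a : Fin 3 → Fin 3 → ℝ) (ha : ∀ i j, a i j = a j i) (x : Fin 3 → ℝ) (c d : ℝ) :
    (∑ i, ∑ j, ∑ k, ∑ l, (c * (if i = k then 1 else 0) + d * (x i * x k)) *
      (c * (if j = l then 1 else 0) + d * (x j * x l)) * a i j * a k l) =
      c ^ 2 * (∑ i, ∑ j, a i j ^ 2) + 2 * c * d * (∑ i, (∑ j, a i j * x j) ^ 2)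
        + d ^ 2 * (∑ i, ∑ j, a i j * x i * x j) ^ 2 := by
  have h10 := ha 1 0
  have h20 := ha 2 0
  have h21 := ha 2 1
  have e01 : ((0 : Fin 3) = 1) = False := by simp
  have e02 : ((0 : Fin 3) = 2) = False := by simp
  have e12 : ((1 : Fin 3) = 2) = False := by simp
  have e10 : ((1 : Fin 3) = 0) = False := by simp
  have e20 : ((2 : Fin 3) = 0) = False := by simp
  have e21 : ((2 : Fin 3) = 1) = False := by simp
  simp only [Fin.sum_univ_three, Fin.isValue, e01, e02, e12, e10, e20, e21, if_true, if_false]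
  rw [h10, h20, h21]
  ring

lemma norm_sq3 (x : E3) : ‖x‖ ^ 2 = x 0 ^ 2 + x 1 ^ 2 + x 2 ^ 2 := by
  rw [EuclideanSpace.norm_sq_eq, Fin.sum_univ_three]
  simp [Real.norm_eq_abs, sq_abs]

variable {N : E3 → ℝ} {ρ : ℝ → ℝ} {h : Fin 3 → Fin 3 → E3 → ℝ}

lemma ginv_eq (i j : Fin 3) (x : E3) : ginv N ρ i j x =
    (‖x‖ / ρ ‖x‖) ^ 2 * (if i = j then 1 else 0) +
      ((1 / N x ^ 2 - (‖x‖ / ρ ‖x‖) ^ 2) / ‖x‖ ^ 2) * (x i * x j) := by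
  unfold ginv
  ring

lemma tr_eq (x : E3) : trQ N ρ h x = hnu N h x + trSph ρ h x := by
  unfold trQ hnu trSph
  have h1 : ∀ i j, ginv N ρ i j x * h i j x =
      (‖x‖ / ρ ‖x‖) ^ 2 * ((if i = j then 1 else 0) * h i j x) +
        ((1 / N x ^ 2 - (‖x‖ / ρ ‖x‖) ^ 2) / ‖x‖ ^ 2) * (h i j x * x i * x j) := by
    intro i j
    rw [ginv_eq]
    ring
  simp only [h1, Finset.sum_add_distrib, ← Finset.mul_sum]
  have h2 : ∑ i : Fin 3, ∑ j : Fin 3, (if i = j then (1 : ℝ) else 0) * h i j x = trE h x := by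
    unfold trE
    refine Finset.sum_congr rfl fun i _ => ?_
    simp
  rw [h2]
  unfold lam
  ring

lemma nsq_ge (hs : ∀ i j x, h i j x = h j i x) {x : E3} (hx : x ≠ 0) (hN : N x ≠ 0)
    (hR : ρ ‖x‖ ≠ 0) :
    hnu N h x ^ 2 + trSph ρ h x ^ 2 / 2 + 2 * (∑ i, tanV h i x ^ 2) / (ρ ‖x‖ ^ 2 * N x ^ 2) ≤
      nsq N ρ h x := by
  have hS0 : ‖x‖ ^ 2 ≠ 0 := pow_ne_zero _ (norm_ne_zero_iff.2 hx)
  have hl : lam h x = (∑ i, ∑ j, h i j x * x i * x j) / ‖x‖ ^ 2 := rfl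
  have h1 := alg_ineq (fun i j => h i j x) (fun i j => hs i j x) (fun i => x i) (‖x‖ ^ 2)
    (lam h x) (norm_sq3 x) hS0 hl
  have h2 := quad_sum (fun i j => h i j x) (fun i j => hs i j x) (fun i => x i)
    ((‖x‖ / ρ ‖x‖) ^ 2) ((1 / N x ^ 2 - (‖x‖ / ρ ‖x‖) ^ 2) / ‖x‖ ^ 2)
  have h3 : nsq N ρ h x = ((‖x‖ / ρ ‖x‖) ^ 2) ^ 2 * (∑ i, ∑ j, h i j x ^ 2) +
      2 * (‖x‖ / ρ ‖x‖) ^ 2 * ((1 / N x ^ 2 - (‖x‖ / ρ ‖x‖) ^ 2) / ‖x‖ ^ 2) *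
        (∑ i, (∑ j, h i j x * x j) ^ 2) +
      ((1 / N x ^ 2 - (‖x‖ / ρ ‖x‖) ^ 2) / ‖x‖ ^ 2) ^ 2 *
        (∑ i, ∑ j, h i j x * x i * x j) ^ 2 := by
    unfold nsq
    simp only [ginv_eq]
    exact h2
  have h4 : ∑ i, ∑ j, h i j x * x i * x j = lam h x * ‖x‖ ^ 2 := by
    rw [hl, div_mul_cancel₀ _ hS0]
  have h5 : ∑ i, tanV h i x ^ 2 = (∑ i, (∑ j, h i j x * x j) ^ 2) - lam h x ^ 2 * ‖x‖ ^ 2 := by
    have e1 := norm_sq3 x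
    unfold tanV
    simp only [Fin.sum_univ_three] at h4 ⊢
    rw [e1] at h4 ⊢
    linear_combination (-2) * lam h x * h4
  rw [h3, h5, h4]
  have h6 : trE h x = ∑ i, h i i x := rfl
  simp only at h1
  set A : ℝ := ∑ i, ∑ j, h i j x ^ 2 with hA
  set B : ℝ := ∑ i, (∑ j, h i j x * x j) ^ 2 with hB
  rw [← h6] at h1
  unfold hnu trSph
  have h7 := mul_le_mul_of_nonneg_left h1 (sq_nonneg ((‖x‖ / ρ ‖x‖) ^ 2))
  have h8 : (‖x‖ / ρ ‖x‖) ^ 2 / ‖x‖ ^ 2 = 1 / ρ ‖x‖ ^ 2 := by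
    field_simp
  have h9 : ((‖x‖ / ρ ‖x‖) ^ 2) ^ 2 * A + 2 * (‖x‖ / ρ ‖x‖) ^ 2 *
        ((1 / N x ^ 2 - (‖x‖ / ρ ‖x‖) ^ 2) / ‖x‖ ^ 2) * B +
      ((1 / N x ^ 2 - (‖x‖ / ρ ‖x‖) ^ 2) / ‖x‖ ^ 2) ^ 2 * (lam h x * ‖x‖ ^ 2) ^ 2 =
      (lam h x / N x ^ 2) ^ 2 + 2 * (B - lam h x ^ 2 * ‖x‖ ^ 2) / (ρ ‖x‖ ^ 2 * N x ^ 2)
        + ((‖x‖ / ρ ‖x‖) ^ 2) ^ 2 * (A - 2 * B / ‖x‖ ^ 2 + lam h x ^ 2) := by
    field_simp
    ring
  rw [h9]
  nlinarith [h7]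

end Pool.Agent.H921.QP
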