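import Pool.Graph.R_pool_sql_team_seeded_63374d34.N774.PI.Main

/-!
# Initial data on quasi-spherical metrics: definitions

`M` is the set of the points `x ≠ 0` of `ℝ³`. The spheres `|x| = s` are round spheres of area radius
`ρ(s)`; the lapse `N(x)` is an arbitrary positive function. So the metric is
`g = N² ds² + ρ(s)² dσ²`, where `dσ²` is the round metric of the unit sphere.
-/

set_option autoImplicit false

namespace Pool.Agent.H921.QP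

open Filter Topology MeasureTheory Pool.Agent.N795.PI Pool.Agent.N774.PIA

/-- The components of the metric `g = N² ds² + ρ(s)² dσ²`. -/
noncomputable def gij (N : E3 → ℝ) (ρ : ℝ → ℝ) (i j : Fin 3) (x : E3) : ℝ :=
  N x ^ 2 * (x i * x j / ‖x‖ ^ 2) +
    (ρ ‖x‖ / ‖x‖) ^ 2 * ((if i = j then 1 else 0) - x i * x j / ‖x‖ ^ 2)

/-- The components of the inverse of the metric. -/
noncomputable def ginv (N : E3 → ℝ) (ρ : ℝ → ℝ) (i j : Fin 3) (x : E3) : ℝ :=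
  1 / N x ^ 2 * (x i * x j / ‖x‖ ^ 2) +
    (‖x‖ / ρ ‖x‖) ^ 2 * ((if i = j then 1 else 0) - x i * x j / ‖x‖ ^ 2)

/-- The derivative `∂_s` in the radial direction; the unit normal of the spheres is
`ν = N⁻¹ ∂_s`. -/
noncomputable def dr (F : E3 → ℝ) (x : E3) : ℝ := fderiv ℝ F x x / ‖x‖

/-- The derivative along a rotation. -/
noncomputable def rot (i j : Fin 3) (F : E3 → ℝ) (x : E3) : ℝ := x i * pd j F x - x j * pd i F x

/-- The Laplace operator of the round unit sphere (the sum of the squares of the rotations),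
applied on each sphere. -/
noncomputable def lapS (F : E3 → ℝ) (x : E3) : ℝ := 1 / 2 * ∑ i, ∑ j, rot i j (rot i j F) x

/-- The mean curvature of the spheres. -/
noncomputable def Hs (N : E3 → ℝ) (ρ : ℝ → ℝ) (x : E3) : ℝ := 2 * deriv ρ ‖x‖ / (ρ ‖x‖ * N x)

/-- The scalar curvature of `g`. -/
noncomputable def scalQ (N : E3 → ℝ) (ρ : ℝ → ℝ) (x : E3) : ℝ :=
  2 / ρ ‖x‖ ^ 2 - 3 / 2 * Hs N ρ x ^ 2 - 2 / N x * dr (Hs N ρ) x
    - 2 * lapS N x / (N x * ρ ‖x‖ ^ 2)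

/-- The trace of `h`. -/
noncomputable def trQ (N : E3 → ℝ) (ρ : ℝ → ℝ) (h : Fin 3 → Fin 3 → E3 → ℝ) (x : E3) : ℝ :=
  ∑ i, ∑ j, ginv N ρ i j x * h i j x

/-- The square of the norm of `h`. -/
noncomputable def nsq (N : E3 → ℝ) (ρ : ℝ → ℝ) (h : Fin 3 → Fin 3 → E3 → ℝ) (x : E3) : ℝ :=
  ∑ i, ∑ j, ∑ k, ∑ l, ginv N ρ i k x * ginv N ρ j l x * h i j x * h k l x

/-- The energy density. -/
noncomputable def muQ (N : E3 → ℝ) (ρ : ℝ → ℝ) (h : Fin 3 → Fin 3 → E3 → ℝ) (x : E3) : ℝ :=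
  (scalQ N ρ x - nsq N ρ h x + trQ N ρ h x ^ 2) / 2

/-- The component `h(ν, ν)`. -/
noncomputable def hnu (N : E3 → ℝ) (h : Fin 3 → Fin 3 → E3 → ℝ) (x : E3) : ℝ :=
  lam h x / N x ^ 2

/-- The trace of the restriction of `h` to the spheres. -/
noncomputable def trSph (ρ : ℝ → ℝ) (h : Fin 3 → Fin 3 → E3 → ℝ) (x : E3) : ℝ :=
  (‖x‖ / ρ ‖x‖) ^ 2 * (trE h x - lam h x)

/-- The divergence term of the momentum density: `N⁻² div_S (N² h(ν, ·))`; the tangential part of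
`h(ν, ·)` is `tanV h / (N |x|)`. -/
noncomputable def dQ (N : E3 → ℝ) (ρ : ℝ → ℝ) (h : Fin 3 → Fin 3 → E3 → ℝ) (x : E3) : ℝ :=
  ‖x‖ / (ρ ‖x‖ ^ 2 * N x ^ 2) * ∑ i, pd i (fun y => N y * tanV h i y) x

/-- The normal component `J(ν)` of the momentum density `J = div (h - (tr h) g)`. -/
noncomputable def Jnu (N : E3 → ℝ) (ρ : ℝ → ℝ) (h : Fin 3 → Fin 3 → E3 → ℝ) (x : E3) : ℝ :=
  Hs N ρ x * (hnu N h x - trSph ρ h x / 2) - dr (trSph ρ h) x / N x + dQ N ρ h x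

/-- The flux of the ADM energy through the sphere of radius `t`. -/
noncomputable def flux (N : E3 → ℝ) (ρ : ℝ → ℝ) (t : ℝ) : ℝ :=
  1 / (16 * Real.pi) * ∫ w : Metric.sphere (0 : E3) 1,
    t ^ 2 * ∑ i, ∑ j, (pd i (gij N ρ i j) (t • (w : E3))
      - pd j (gij N ρ i i) (t • (w : E3))) * (w : E3) j ∂(volume : Measure E3).toSphere

/-- The data: the metric `g = N² ds² + ρ(s)² dσ²` on `x ≠ 0`, a symmetric tensor `h`, the end
`|x| → ∞` is asymptotically flat of total mass `m`. -/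
structure IsQData (N : E3 → ℝ) (ρ : ℝ → ℝ) (h : Fin 3 → Fin 3 → E3 → ℝ) (m : ℝ) : Prop where
  /-- the metric is positive -/
  posN : ∀ x : E3, x ≠ 0 → 0 < N x
  posR : ∀ t : ℝ, 0 < t → 0 < ρ t
  /-- the metric is smooth -/
  smoothN : ∀ x : E3, x ≠ 0 → ContDiffAt ℝ ((⊤ : ℕ∞) : WithTop ℕ∞) N x
  smoothR : ∀ t : ℝ, 0 < t → ContDiffAt ℝ ((⊤ : ℕ∞) : WithTop ℕ∞) ρ t
  /-- `h` is symmetric -/
  symm : ∀ i j x, h i j x = h j i x
  /-- `h` is smooth -/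
  smoothH : ∀ i j x, x ≠ 0 → ContDiffAt ℝ ((⊤ : ℕ∞) : WithTop ℕ∞) (h i j) x
  /-- `|J(ν)| ≤ μ`: a part of the dominant energy condition -/
  dec : ∀ x, x ≠ 0 → |Jnu N ρ h x| ≤ muQ N ρ h x
  /-- the ratio of the trace of `h` over the spheres and of their mean curvature is constant on
  each sphere -/
  unif : ∀ x y : E3, x ≠ 0 → ‖x‖ = ‖y‖ → N x * trSph ρ h x = N y * trSph ρ h y
  /-- asymptotic flatness of `g` -/
  endR : ∃ T : ℝ, ∀ t : ℝ, T ≤ t → ρ t = t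
  endN : ∃ C : ℝ, ∀ x : E3, 1 ≤ ‖x‖ → |N x - 1| ≤ C / ‖x‖ ∧ ∀ i, |pd i N x| ≤ C / ‖x‖ ^ 2
  /-- asymptotic flatness of `h` -/
  endH : ∃ C : ℝ, ∀ x : E3, 1 ≤ ‖x‖ → ∀ i j, |h i j x| ≤ C / ‖x‖ ^ 2
  /-- the total mass -/
  mass : Tendsto (flux N ρ) atTop (𝓝 m)

end Pool.Agent.H921.QP
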