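import Pool.Agent.H921.QP.Glob

/-!
# Quasi-spherical data: the theorem on two ends
-/

set_option autoImplicit false

namespace Pool.Agent.H921.QP

open Filter Topology MeasureTheory Pool.Agent.N795.PI Pool.Agent.N774.PIA

variable {N : E3 → ℝ} {ρ : ℝ → ℝ} {h : Fin 3 → Fin 3 → E3 → ℝ} {m : ℝ}

lemma final_A {A r m : ℝ} (hr : 0 < r) (hm : r / 2 ≤ m) (hA : A ≤ 4 * Real.pi * r ^ 2) :
    Real.sqrt (A / (16 * Real.pi)) ≤ m := by
  have hp := Real.pi_pos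
  have h1 : A / (16 * Real.pi) ≤ (r / 2) ^ 2 := by
    rw [div_le_iff₀ (by positivity)]
    calc A ≤ 4 * Real.pi * r ^ 2 := hA
      _ = (r / 2) ^ 2 * (16 * Real.pi) := by ring
  calc Real.sqrt (A / (16 * Real.pi)) ≤ Real.sqrt ((r / 2) ^ 2) := Real.sqrt_le_sqrt h1
    _ = r / 2 := Real.sqrt_sq (by positivity)
    _ ≤ m := hm

section
variable (D : IsQData N ρ h m)
include D

lemma IsQData.abs_tr {x : E3} (hx : x ≠ 0) : |trSph ρ h x| = 2 * |bet N ρ h ‖x‖| / N x := by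
  rw [D.tr_eq_bet hx, abs_div, abs_mul, abs_two, abs_of_pos (D.posN x hx)]

lemma IsQData.tr_lt {x : E3} (hx : x ≠ 0) :
    |trSph ρ h x| < Hs N ρ x ↔ ρ ‖x‖ * |bet N ρ h ‖x‖| < deriv ρ ‖x‖ := by
  have hN := D.posN x hx
  have hr := D.posR _ (norm_pos_iff.2 hx)
  rw [D.abs_tr hx, Hs, div_lt_div_iff₀ hN (by positivity)]
  constructor
  · intro h1
    have h2 : (2 * N x) * (ρ ‖x‖ * |bet N ρ h ‖x‖|) < (2 * N x) * deriv ρ ‖x‖ := by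
      calc (2 * N x) * (ρ ‖x‖ * |bet N ρ h ‖x‖|) = 2 * |bet N ρ h ‖x‖| * (ρ ‖x‖ * N x) := by ring
        _ < 2 * deriv ρ ‖x‖ * N x := h1
        _ = (2 * N x) * deriv ρ ‖x‖ := by ring
    exact lt_of_mul_lt_mul_left h2 (by positivity)
  · intro h1
    calc 2 * |bet N ρ h ‖x‖| * (ρ ‖x‖ * N x) = (2 * N x) * (ρ ‖x‖ * |bet N ρ h ‖x‖|) := by ring
      _ < (2 * N x) * deriv ρ ‖x‖ := by
        exact mul_lt_mul_of_pos_left h1 (by positivity)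
      _ = 2 * deriv ρ ‖x‖ * N x := by ring

lemma IsQData.tr_eq_of {x : E3} (hx : x ≠ 0)
    (he : deriv ρ ‖x‖ = ρ ‖x‖ * |bet N ρ h ‖x‖|) : |trSph ρ h x| = Hs N ρ x := by
  have hN := D.posN x hx
  have hr := D.posR _ (norm_pos_iff.2 hx)
  rw [D.abs_tr hx, Hs, he]
  field_simp

theorem IsQData.two_ends (hflux : ∀ T : ℝ, (∀ t, T ≤ t → ρ t = t) → ∀ t, 0 < t → T < t →
      flux N ρ t = mean (fun x => t / 2 * (N x ^ 2 - 1)) t)
    (hin : Tendsto ρ (𝓝[>] 0) atTop) :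
    (∃ t1 : ℝ, 0 < t1 ∧ (∀ x : E3, ‖x‖ = t1 → |trSph ρ h x| = Hs N ρ x) ∧
      (∀ x : E3, t1 < ‖x‖ → |trSph ρ h x| < Hs N ρ x) ∧ 4 * Real.pi * ρ t1 ^ 2 ≤
        16 * Real.pi * m ^ 2) ∧
    ∀ A : ℝ, (∀ t : ℝ, 0 < t → A ≤ 4 * Real.pi * ρ t ^ 2) →
      Real.sqrt (A / (16 * Real.pi)) ≤ m := by
  obtain ⟨t1, ht1, he, haft⟩ := D.last hin
  have hm := D.main_of hflux ht1 he haft
  have hr := D.posR t1 ht1
  refine ⟨⟨t1, ht1, fun x hx => ?_, fun x hx => ?_, ?_⟩, fun A hA => final_A hr hm (hA t1 ht1)⟩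
  · have hx0 : x ≠ 0 := by
      rw [← norm_pos_iff, hx]
      exact ht1
    exact D.tr_eq_of hx0 (by rw [hx]; exact he)
  · have hx0 : x ≠ 0 := by
      rw [← norm_pos_iff]
      exact ht1.trans hx
    exact (D.tr_lt hx0).2 (haft _ hx)
  · have h1 : ρ t1 ^ 2 ≤ 4 * m ^ 2 := by nlinarith
    have hp := Real.pi_pos
    nlinarith

end

end Pool.Agent.H921.QP
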