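import Pool.Agent.H921.QP.Defs
import Pool.Graph.R_pool_sql_team_seeded_63374d34.N281.PIAdm

/-!
# The flux of the ADM energy of a quasi-spherical metric (helper62)
-/

set_option autoImplicit false

namespace Pool.Agent.H921.QP

open Filter Topology MeasureTheory Pool.Agent.N795.PI Pool.Agent.N774.PIA

namespace H62

lemma coord_fd (i : Fin 3) (x : E3) :
    HasFDerivAt (fun y : E3 => y i) (EuclideanSpace.proj i : E3 →L[ℝ] ℝ) x :=
  (EuclideanSpace.proj i : E3 →L[ℝ] ℝ).hasFDerivAt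

/-- the derivative of `y_i y_j / |y|²` -/
lemma pd_q (i j k : Fin 3) (x : E3) (hx : x ≠ 0) :
    DifferentiableAt ℝ (fun y : E3 => y i * y j / ‖y‖ ^ 2) x ∧
    pd k (fun y : E3 => y i * y j / ‖y‖ ^ 2) x =
      ((if k = i then x j else 0) + (if k = j then x i else 0)) / ‖x‖ ^ 2
        - 2 * (x i * x j * x k) / ‖x‖ ^ 4 := by
  have hx' : ‖x‖ ≠ 0 := norm_ne_zero_iff.2 hx
  have h1 : HasFDerivAt (fun y : E3 => ‖y‖ ^ 2) (2 • innerSL ℝ x) x :=
    (hasStrictFDerivAt_norm_sq x).hasFDerivAt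
  have h2 : HasFDerivAt (fun y : E3 => (‖y‖ ^ 2)⁻¹)
      ((-((‖x‖ ^ 2) ^ 2)⁻¹) • (2 • innerSL ℝ x)) x :=
    (hasDerivAt_inv (pow_ne_zero 2 hx')).comp_hasFDerivAt x h1
  have h3 := ((coord_fd i x).mul (coord_fd j x)).mul h2
  have h4 : (fun y : E3 => y i * y j / ‖y‖ ^ 2) = fun y : E3 => y i * y j * (‖y‖ ^ 2)⁻¹ := by
    funext y
    rw [div_eq_mul_inv]
  refine ⟨?_, ?_⟩
  · rw [h4]
    exact h3.differentiableAt
  · unfold pd
    rw [h4]
    erw [h3.fderiv]
    have hp : ∀ (l : Fin 3), (EuclideanSpace.proj l : E3 →L[ℝ] ℝ) (EuclideanSpace.single k 1) =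
        if k = l then 1 else 0 := by
      intro l
      show (EuclideanSpace.single k (1 : ℝ) : E3) l = _
      rw [PiLp.single_apply]
      simp only [eq_comm]
    simp only [add_apply, smul_apply, smul_eq_mul, innerSL_apply_apply,
      EuclideanSpace.inner_single_right, hp, nsmul_eq_mul]
    split_ifs <;> simp <;> field_simp <;> ring

/-- the metric near infinity -/
lemma gij_eq {N : E3 → ℝ} {ρ : ℝ → ℝ} {T : ℝ} (hρ : ∀ t, T ≤ t → ρ t = t) {x : E3} (hx : x ≠ 0)
    (hT : T < ‖x‖) (i j : Fin 3) :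
    gij N ρ i j =ᶠ[𝓝 x] fun y : E3 =>
      (if i = j then 1 else 0) + (N y ^ 2 - 1) * (y i * y j / ‖y‖ ^ 2) := by
  have h1 : ∀ᶠ y : E3 in 𝓝 x, T < ‖y‖ := continuous_norm.continuousAt.eventually_const_lt hT
  have h2 : ∀ᶠ y : E3 in 𝓝 x, y ≠ 0 := continuousAt_id.eventually_ne hx
  filter_upwards [h1, h2] with y hy1 hy2
  have hn : ‖y‖ ≠ 0 := norm_ne_zero_iff.2 hy2
  unfold gij
  rw [hρ _ hy1.le, div_self hn]
  ring

/-- the derivative of the metric near infinity -/
lemma pd_gij {N : E3 → ℝ} {ρ : ℝ → ℝ} {T : ℝ} (hρ : ∀ t, T ≤ t → ρ t = t) {x : E3} (hx : x ≠ 0)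
    (hN : DifferentiableAt ℝ N x) (hT : T < ‖x‖) (i j k : Fin 3) :
    pd k (gij N ρ i j) x = pd k (fun y => N y ^ 2 - 1) x * (x i * x j / ‖x‖ ^ 2) +
      (N x ^ 2 - 1) * (((if k = i then x j else 0) + (if k = j then x i else 0)) / ‖x‖ ^ 2
        - 2 * (x i * x j * x k) / ‖x‖ ^ 4) := by
  obtain ⟨hd, hq⟩ := pd_q i j k x hx
  have hF : DifferentiableAt ℝ (fun y => N y ^ 2 - 1) x := (hN.pow 2).sub_const 1
  rw [← hq]
  unfold pd
  rw [(gij_eq (N := N) hρ hx hT i j).fderiv_eq]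
  have h1 := hF.hasFDerivAt.mul hd.hasFDerivAt
  have h2 := h1.const_add (if i = j then (1 : ℝ) else 0)
  erw [h2.fderiv]
  simp only [add_apply, smul_apply, smul_eq_mul]
  ring

lemma key_alg (v P : Fin 3 → ℝ) (F t : ℝ) (ht : t ≠ 0) (h3 : ∑ j, v j ^ 2 = 1) :
    t ^ 2 * (∑ i : Fin 3, ∑ j : Fin 3,
      ((P i * (v i * v j) +
      F * (((if i = i then v j else 0) + (if i = j then v i else 0)) -
        2 * (v i * v j * v i)) / t)
      - (P j * (v i * v i) +
      F * (((if j = i then v i else 0) + (if j = i then v i else 0)) -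
        2 * (v i * v i * v j)) / t)) * v j) = 4 * (t / 2 * F) := by
  rw [Fin.sum_univ_three] at h3
  have key1 : (∑ i : Fin 3, ∑ j : Fin 3,
      ((P i * (v i * v j) +
      F * (((if i = i then v j else 0) + (if i = j then v i else 0)) -
        2 * (v i * v j * v i)) / t)
      - (P j * (v i * v i) +
      F * (((if j = i then v i else 0) + (if j = i then v i else 0)) -
        2 * (v i * v i * v j)) / t)) * v j) =
      2 * F / t * (v 0 ^ 2 + v 1 ^ 2 + v 2 ^ 2) := by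
    simp only [Fin.sum_univ_three]
    simp
    field_simp
    ring
  rw [key1, h3]
  field_simp
  ring

/-- the integrand -/
lemma integrand {N : E3 → ℝ} {ρ : ℝ → ℝ} {T : ℝ} (hN : ∀ x : E3, x ≠ 0 → DifferentiableAt ℝ N x)
    (hρ : ∀ t, T ≤ t → ρ t = t) {t : ℝ} (ht : 0 < t) (hT : T < t)
    (w : Metric.sphere (0 : E3) 1) :
    t ^ 2 * ∑ i, ∑ j, (pd i (gij N ρ i j) (t • (w : E3))
      - pd j (gij N ρ i i) (t • (w : E3))) * (w : E3) j =
      4 * (t / 2 * (N (t • (w : E3)) ^ 2 - 1)) := by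
  have hw : ‖(w : E3)‖ = 1 := by simp
  have hn : ‖t • (w : E3)‖ = t := by
    rw [norm_smul, hw, mul_one, Real.norm_eq_abs, abs_of_pos ht]
  have hne : t • (w : E3) ≠ 0 := by
    rw [← norm_pos_iff, hn]
    exact ht
  have h3 : ∑ j, (w : E3) j ^ 2 = 1 := by
    have := EuclideanSpace.norm_sq_eq (w : E3)
    rw [hw] at this
    simp only [Real.norm_eq_abs, sq_abs] at this
    linarith
  have hc : ∀ j, (t • (w : E3)) j = t * (w : E3) j := fun j => rfl
  have hg : ∀ i j k, pd k (gij N ρ i j) (t • (w : E3)) =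
      pd k (fun y => N y ^ 2 - 1) (t • (w : E3)) * ((w : E3) i * (w : E3) j) +
      (N (t • (w : E3)) ^ 2 - 1) * (((if k = i then (w : E3) j else 0) +
        (if k = j then (w : E3) i else 0)) - 2 * ((w : E3) i * (w : E3) j * (w : E3) k)) / t := by
    intro i j k
    rw [pd_gij hρ hne (hN _ hne) (by rw [hn]; exact hT), hn, hc, hc, hc]
    have e1 : (if k = i then t * (w : E3) j else 0) = t * (if k = i then (w : E3) j else 0) := by
      split_ifs <;> simp
    have e2 : (if k = j then t * (w : E3) i else 0) = t * (if k = j then (w : E3) i else 0) := by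
      split_ifs <;> simp
    rw [e1, e2]
    generalize (if k = i then (w : E3) j else 0) = A
    generalize (if k = j then (w : E3) i else 0) = B
    generalize pd k (fun y => N y ^ 2 - 1) (t • (w : E3)) = C
    generalize N (t • (w : E3)) = C'
    field_simp
  simp only [hg]
  exact key_alg (fun j => (w : E3) j) (fun k => pd k (fun y => N y ^ 2 - 1) (t • (w : E3)))
    (N (t • (w : E3)) ^ 2 - 1) t ht.ne' h3

end H62

theorem flux_eq {N : E3 → ℝ} {ρ : ℝ → ℝ} {T : ℝ} (hN : ∀ x : E3, x ≠ 0 → DifferentiableAt ℝ N x)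
    (hρ : ∀ t, T ≤ t → ρ t = t) {t : ℝ} (ht : 0 < t) (hT : T < t) :
    flux N ρ t = mean (fun x => t / 2 * (N x ^ 2 - 1)) t := by
  unfold flux mean
  simp_rw [H62.integrand hN hρ ht hT]
  rw [average_eq, H281.mass, integral_const_mul, smul_eq_mul]
  have := Real.pi_pos
  field_simp
  ring

end Pool.Agent.H921.QP
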