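import Pool.Agent.H921.QP.Mean

/-!
# Quasi-spherical data: the last trapped sphere and the total mass
-/

set_option autoImplicit false

namespace Pool.Agent.H921.QP

open Filter Topology MeasureTheory Pool.Agent.N795.PI Pool.Agent.N774.PIA

variable {N : E3 → ℝ} {ρ : ℝ → ℝ} {h : Fin 3 → Fin 3 → E3 → ℝ} {m : ℝ}

section
variable (D : IsQData N ρ h m)
include D

theorem IsQData.bound : ∃ K T : ℝ, 0 ≤ K ∧ 1 ≤ T ∧ (∀ t, T ≤ t → ρ t = t) ∧
    ∀ x : E3, T ≤ ‖x‖ → 1 / 2 ≤ N x ∧ N x ≤ 2 ∧ |trSph ρ h x| ≤ K / ‖x‖ ^ 2 := by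
  obtain ⟨T0, hT0⟩ := D.endR
  obtain ⟨C1, hC1⟩ := D.endN
  obtain ⟨C, hC⟩ := D.endH
  have hC0 : 0 ≤ C := by
    have h2 := hC e0 (by rw [norm_e0]) 0 0
    rw [norm_e0, one_pow, div_one] at h2
    exact le_trans (abs_nonneg _) h2
  refine ⟨12 * C, max (max T0 1) (2 * |C1|), by positivity,
    le_trans (le_max_right _ _) (le_max_left _ _),
    fun t ht => hT0 t (le_trans (le_trans (le_max_left _ _) (le_max_left _ _)) ht), fun x hx => ?_⟩
  have hx1 : 1 ≤ ‖x‖ := le_trans (le_trans (le_max_right _ _) (le_max_left _ _)) hx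
  have hx2 : 2 * |C1| ≤ ‖x‖ := le_trans (le_max_right _ _) hx
  have hx3 : ρ ‖x‖ = ‖x‖ := hT0 _ (le_trans (le_trans (le_max_left _ _) (le_max_left _ _)) hx)
  have hxp : 0 < ‖x‖ := by linarith
  have h1 := (hC1 x hx1).1
  have h2 : C1 / ‖x‖ ≤ 1 / 2 := by
    rw [div_le_iff₀ hxp]
    have := le_abs_self C1
    linarith
  have h3 := abs_le.1 (h1.trans h2)
  refine ⟨by linarith, by linarith, ?_⟩
  have hb := hC x hx1
  have hxi : ∀ i, |x i| ≤ ‖x‖ := fun i => by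
    have h3 : x i ^ 2 ≤ ‖x‖ ^ 2 := by
      rw [EuclideanSpace.norm_sq_eq]
      have := Finset.single_le_sum (f := fun i => ‖x i‖ ^ 2) (fun i _ => sq_nonneg _)
        (Finset.mem_univ i)
      simpa [Real.norm_eq_abs, sq_abs] using this
    exact abs_le_of_sq_le_sq h3 hxp.le
  have h4 : |trE h x| ≤ 3 * (C / ‖x‖ ^ 2) := by
    rw [trE]
    refine (Finset.abs_sum_le_sum_abs _ _).trans ?_
    calc ∑ i, |h i i x| ≤ ∑ _i : Fin 3, C / ‖x‖ ^ 2 := Finset.sum_le_sum fun i _ => hb i i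
      _ = 3 * (C / ‖x‖ ^ 2) := by simp
  have h5 : |lam h x| ≤ 9 * (C / ‖x‖ ^ 2) := by
    rw [lam, abs_div, abs_of_pos (by positivity : 0 < ‖x‖ ^ 2), div_le_iff₀ (by positivity)]
    refine (Finset.abs_sum_le_sum_abs _ _).trans ?_
    calc ∑ i, |∑ j, h i j x * x i * x j| ≤ ∑ _i : Fin 3, 3 * (C / ‖x‖ ^ 2 * ‖x‖ ^ 2) := by
          refine Finset.sum_le_sum fun i _ => (Finset.abs_sum_le_sum_abs _ _).trans ?_
          calc ∑ j, |h i j x * x i * x j| ≤ ∑ _j : Fin 3, C / ‖x‖ ^ 2 * ‖x‖ ^ 2 := by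
                refine Finset.sum_le_sum fun j _ => ?_
                rw [abs_mul, abs_mul]
                calc |h i j x| * |x i| * |x j| ≤ C / ‖x‖ ^ 2 * ‖x‖ * ‖x‖ := by
                      gcongr
                      · exact hb i j
                      · exact hxi i
                      · exact hxi j
                  _ = C / ‖x‖ ^ 2 * ‖x‖ ^ 2 := by ring
            _ = 3 * (C / ‖x‖ ^ 2 * ‖x‖ ^ 2) := by simp
      _ = 9 * (C / ‖x‖ ^ 2) * ‖x‖ ^ 2 := by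
          simp
          ring
  rw [trSph, hx3, div_self hxp.ne', one_pow, one_mul]
  calc |trE h x - lam h x| ≤ |trE h x| + |lam h x| := abs_sub _ _
    _ ≤ 12 * (C / ‖x‖ ^ 2) := by linarith
    _ = 12 * C / ‖x‖ ^ 2 := by ring

theorem IsQData.bet_bound : ∃ K T : ℝ, 0 ≤ K ∧ 1 ≤ T ∧
    (∀ x : E3, T ≤ ‖x‖ → 1 / 2 ≤ N x) ∧
    ∀ t, T < t → ρ t = t ∧ deriv ρ t = 1 ∧ |bet N ρ h t| ≤ K / t ^ 2 := by
  obtain ⟨K, T, hK, hT, hr, hb⟩ := D.bound
  refine ⟨K, T, hK, hT, fun x hx => (hb x hx).1, fun t ht => ⟨hr t ht.le, ?_, ?_⟩⟩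
  · have h1 : ρ =ᶠ[𝓝 t] id := by
      filter_upwards [lt_mem_nhds ht] with s hs
      exact hr s hs.le
    rw [h1.deriv_eq]
    exact deriv_id t
  · have ht0 : 0 < t := by linarith
    have hn := norm_te0 ht0
    obtain ⟨h1, h2, h3⟩ := hb (t • e0) (by rw [hn]; exact ht.le)
    rw [hn] at h3
    rw [bet, abs_div, abs_mul, abs_two, abs_of_nonneg (by linarith : (0 : ℝ) ≤ N (t • e0))]
    calc N (t • e0) * |trSph ρ h (t • e0)| / 2 ≤ 2 * (K / t ^ 2) / 2 := by gcongr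
      _ = K / t ^ 2 := by ring

theorem IsQData.last (hin : Tendsto ρ (𝓝[>] 0) atTop) : ∃ t1 : ℝ, 0 < t1 ∧
    deriv ρ t1 = ρ t1 * |bet N ρ h t1| ∧ ∀ t, t1 < t → ρ t * |bet N ρ h t| < deriv ρ t := by
  obtain ⟨K, T, hK, hT, -, hb⟩ := D.bet_bound
  have cg : ∀ t, 0 < t → ContinuousAt (fun t => deriv ρ t - ρ t * |bet N ρ h t|) t := fun t ht =>
    (D.hdR ht).continuousAt.sub ((D.hR ht).continuousAt.mul (D.hbet ht).continuousAt.abs)
  set S : Set ℝ := {t | 0 < t ∧ deriv ρ t - ρ t * |bet N ρ h t| ≤ 0} with hS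
  have hbdd : BddAbove S := by
    refine ⟨max T K + 1, fun t ht => ?_⟩
    by_contra hlt
    have h1 : max T K + 1 < t := not_le.1 hlt
    have h2 : T < t := by linarith [le_max_left T K]
    have h3 : K + 1 < t := by linarith [le_max_right T K]
    obtain ⟨e1, e2, e3⟩ := hb t h2
    have ht0 : 0 < t := ht.1
    have h4 : t * |bet N ρ h t| ≤ K / t := by
      calc t * |bet N ρ h t| ≤ t * (K / t ^ 2) := by gcongr
        _ = K / t := by field_simp
    have h5 : K / t < 1 := by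
      rw [div_lt_one ht0]
      linarith
    have h6 := ht.2
    rw [e1, e2] at h6
    linarith
  have hne : S.Nonempty := by
    by_contra hcon
    rw [Set.not_nonempty_iff_eq_empty] at hcon
    have hpos : ∀ t, 0 < t → 0 < deriv ρ t := by
      intro t ht
      have h1 : t ∉ S := by rw [hcon]; exact Set.notMem_empty t
      have h2 : ¬ (deriv ρ t - ρ t * |bet N ρ h t| ≤ 0) := fun h => h1 ⟨ht, h⟩
      have h3 : 0 ≤ ρ t * |bet N ρ h t| := mul_nonneg (D.posR t ht).le (abs_nonneg _)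
      linarith [not_le.1 h2]
    have hmono : MonotoneOn ρ (Set.Ioi 0) := by
      refine monotoneOn_of_deriv_nonneg (convex_Ioi 0)
        (fun t ht => (D.hR ht).continuousAt.continuousWithinAt) ?_ ?_
      · intro t ht
        rw [interior_Ioi] at ht
        exact (D.hR ht).differentiableAt.differentiableWithinAt
      · intro t ht
        rw [interior_Ioi] at ht
        exact (hpos t ht).le
    have h1 : ∀ᶠ t in 𝓝[>] (0 : ℝ), ρ 1 + 1 ≤ ρ t := hin.eventually_ge_atTop (ρ 1 + 1)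
    have h2 : ∀ᶠ t in 𝓝[>] (0 : ℝ), t ∈ Set.Ioo (0 : ℝ) 1 := Ioo_mem_nhdsGT one_pos
    obtain ⟨t, h3, h4⟩ := (h1.and h2).exists
    have h5 := hmono (Set.mem_Ioi.2 h4.1) (Set.mem_Ioi.2 one_pos) h4.2.le
    linarith
  obtain ⟨s0, hs0⟩ := hne
  set t1 := sSup S with ht1
  have ht1pos : 0 < t1 := hs0.1.trans_le (le_csSup hbdd hs0)
  have hafter : ∀ t, t1 < t → 0 < deriv ρ t - ρ t * |bet N ρ h t| := by
    intro t ht
    by_contra hcon
    have h1 : t ∈ S := ⟨ht1pos.trans ht, not_lt.1 hcon⟩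
    exact absurd (le_csSup hbdd h1) (not_le.2 ht)
  have hle : deriv ρ t1 - ρ t1 * |bet N ρ h t1| ≤ 0 := by
    have hcl : t1 ∈ closure S := csSup_mem_closure ⟨s0, hs0⟩ hbdd
    obtain ⟨u, hu1, hu2⟩ := mem_closure_iff_seq_limit.1 hcl
    have h1 := (cg t1 ht1pos).tendsto.comp hu2
    exact le_of_tendsto h1 (Eventually.of_forall fun n => (hu1 n).2)
  have hge : 0 ≤ deriv ρ t1 - ρ t1 * |bet N ρ h t1| := by
    have h1 : Tendsto (fun t => deriv ρ t - ρ t * |bet N ρ h t|) (𝓝[>] t1)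
        (𝓝 (deriv ρ t1 - ρ t1 * |bet N ρ h t1|)) :=
      (cg t1 ht1pos).tendsto.mono_left nhdsWithin_le_nhds
    refine ge_of_tendsto h1 ?_
    filter_upwards [self_mem_nhdsWithin] with t ht
    exact (hafter t ht).le
  exact ⟨t1, ht1pos, by linarith, fun t ht => by linarith [hafter t ht]⟩

theorem IsQData.main_of (hflux : ∀ T : ℝ, (∀ t, T ≤ t → ρ t = t) → ∀ t, 0 < t → T < t →
      flux N ρ t = mean (fun x => t / 2 * (N x ^ 2 - 1)) t)
    {t1 : ℝ} (ht1 : 0 < t1) (he : deriv ρ t1 = ρ t1 * |bet N ρ h t1|)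
    (haft : ∀ t, t1 < t → ρ t * |bet N ρ h t| < deriv ρ t) : ρ t1 / 2 ≤ m := by
  obtain ⟨K, T, hK, hT, hN, hb⟩ := D.bet_bound
  obtain ⟨T0, hT0⟩ := D.endR
  have hmono : MonotoneOn (mb N ρ (bet N ρ h)) (Set.Ici t1) := by
    refine monotoneOn_of_deriv_nonneg (convex_Ici t1)
      (fun t ht => (D.hmb (ht1.trans_le ht)).continuousAt.continuousWithinAt) ?_ ?_
    · intro t ht
      rw [interior_Ici] at ht
      exact (D.hmb (ht1.trans ht)).differentiableAt.differentiableWithinAt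
    · intro t ht
      rw [interior_Ici] at ht
      rw [(D.hmb (ht1.trans ht)).deriv]
      exact D.mb_nonneg (ht1.trans ht) (haft t ht).le
  have h0 : mb N ρ (bet N ρ h) t1 = ρ t1 / 2 := by
    have h1 : deriv ρ t1 ^ 2 - ρ t1 ^ 2 * bet N ρ h t1 ^ 2 = 0 := by
      rw [he, mul_pow, sq_abs]
      ring
    rw [mb, h1]
    ring
  have hlim : Tendsto (fun t => flux N ρ t + 2 * K ^ 2 / t) atTop (𝓝 (m + 0)) := by
    refine D.mass.add ?_
    exact tendsto_const_nhds.div_atTop tendsto_id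
  rw [add_zero] at hlim
  refine ge_of_tendsto hlim ?_
  filter_upwards [eventually_gt_atTop (max (max T T0) t1)] with t ht
  have htT : T < t := lt_of_le_of_lt (le_trans (le_max_left _ _) (le_max_left _ _)) ht
  have htT0 : T0 < t := lt_of_le_of_lt (le_trans (le_max_right _ _) (le_max_left _ _)) ht
  have ht1' : t1 < t := lt_of_le_of_lt (le_max_right _ _) ht
  have htp : 0 < t := by linarith
  obtain ⟨e1, e2, e3⟩ := hb t htT
  have h2 : ρ t1 / 2 ≤ mb N ρ (bet N ρ h) t := by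
    rw [← h0]
    exact hmono (Set.mem_Ici.2 le_rfl) (Set.mem_Ici.2 ht1'.le) ht1'.le
  have h3 := hflux T0 hT0 t htp htT0
  have hq4 : qq N t ≤ 4 := by
    have h4 : qq N t ≤ mean (fun _ => 4) t := by
      refine mean_mono D.co_q (cc 4) htp fun x hx => ?_
      have h5 := hN x (by rw [hx]; exact htT.le)
      rw [inv_le_comm₀ (by positivity) (by norm_num)]
      nlinarith
    rwa [mean_const] at h4
  have h6 : t / 2 * (1 - qq N t) ≤ flux N ρ t := by
    rw [h3]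
    have h7 : t / 2 * (1 - qq N t) = mean (fun x => t / 2 + (-(t / 2)) * (N x ^ 2)⁻¹) t := by
      rw [mean_add (cc _) (cm _ D.co_q) htp, mean_smul, mean_const, qq]
      ring
    rw [h7]
    have hco : CO (fun x => N x ^ 2 - 1) := fun x hx =>
      ((D.c1N x hx).continuousAt.pow 2).sub continuousAt_const
    refine mean_mono (ca (cc _) (cm _ D.co_q)) (cm (t / 2) hco) htp fun x hx => ?_
    have hx0 : x ≠ 0 := by
      rw [← norm_pos_iff, hx]
      exact htp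
    have hNx := D.posN x hx0
    have h8 : 2 ≤ N x ^ 2 + (N x ^ 2)⁻¹ := by
      have h9 : 0 ≤ (N x - (N x)⁻¹) ^ 2 := sq_nonneg _
      have h10 : (N x - (N x)⁻¹) ^ 2 = N x ^ 2 + (N x ^ 2)⁻¹ - 2 := by
        field_simp
        ring
      linarith
    have h11 : t / 2 * (N x ^ 2 - 1) - (t / 2 + -(t / 2) * (N x ^ 2)⁻¹) =
        t / 2 * (N x ^ 2 + (N x ^ 2)⁻¹ - 2) := by ring
    have h12 : 0 ≤ t / 2 * (N x ^ 2 + (N x ^ 2)⁻¹ - 2) :=
      mul_nonneg (by positivity) (by linarith)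
    linarith
  have h7 : t ^ 3 * bet N ρ h t ^ 2 * qq N t / 2 ≤ 2 * K ^ 2 / t := by
    have h8 : bet N ρ h t ^ 2 ≤ (K / t ^ 2) ^ 2 := by
      rw [← sq_abs (bet N ρ h t)]
      exact pow_le_pow_left₀ (abs_nonneg _) e3 2
    have hq0 : 0 ≤ qq N t := by
      have h4 : mean (fun _ => (0 : ℝ)) t ≤ qq N t := by
        refine mean_mono (cc 0) D.co_q htp fun x hx => ?_
        positivity
      rwa [mean_const] at h4
    calc t ^ 3 * bet N ρ h t ^ 2 * qq N t / 2 ≤ t ^ 3 * (K / t ^ 2) ^ 2 * 4 / 2 := by gcongr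
      _ = 2 * K ^ 2 / t := by
        field_simp
        ring
  have h8 : mb N ρ (bet N ρ h) t = t / 2 * (1 - qq N t) + t ^ 3 * bet N ρ h t ^ 2 * qq N t / 2 := by
    rw [mb, e1, e2]
    ring
  linarith

end

end Pool.Agent.H921.QP
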