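import Pool.Agent.H921.QP.Fin
import Pool.Graph.R_pool_sql_team_seeded_63374d34.N234.PIMc
import Pool.Graph.R_pool_sql_team_seeded_63374d34.N793.PIFar

/-!
# Surfaces in quasi-spherical data: comparison at the farthest point
-/

set_option autoImplicit false

namespace Pool.Agent.H921.QP

open Filter Topology MeasureTheory Pool.Agent.N795.PI Pool.Agent.N774.PIA

/-- The density `√(det g)`. -/
noncomputable def dens (N : E3 → ℝ) (ρ : ℝ → ℝ) (x : E3) : ℝ := N x * (ρ ‖x‖ / ‖x‖) ^ 2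

/-- The square of the norm of `dF` with respect to `g`. -/
noncomputable def gradSq (N : E3 → ℝ) (ρ : ℝ → ℝ) (F : E3 → ℝ) (x : E3) : ℝ :=
  ∑ i, ∑ j, ginv N ρ i j x * pd i F x * pd j F x

/-- The components of the unit normal `∇F / |∇F|` of the level sets of `F`. -/
noncomputable def unitN (N : E3 → ℝ) (ρ : ℝ → ℝ) (F : E3 → ℝ) (i : Fin 3) (x : E3) : ℝ :=
  (∑ j, ginv N ρ i j x * pd j F x) / Real.sqrt (gradSq N ρ F x)

/-- The mean curvature `div (∇F / |∇F|)` of the level sets of `F`. -/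
noncomputable def meanC (N : E3 → ℝ) (ρ : ℝ → ℝ) (F : E3 → ℝ) (x : E3) : ℝ :=
  (∑ i, pd i (fun y => dens N ρ y * unitN N ρ F i y) x) / dens N ρ x

/-- The trace of the restriction of `h` to the level sets of `F`. -/
noncomputable def trSig (N : E3 → ℝ) (ρ : ℝ → ℝ) (h : Fin 3 → Fin 3 → E3 → ℝ) (F : E3 → ℝ)
    (x : E3) : ℝ :=
  trQ N ρ h x - ∑ i, ∑ j, h i j x * unitN N ρ F i x * unitN N ρ F j x

lemma ray_calc1 {n r c : ℝ → ℝ} {s n' r' : ℝ} (hn0 : 0 < n s) (hr0 : 0 < r s)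
    (hn : HasDerivAt n n' s) (hr : HasDerivAt r r' s) (hc : HasDerivAt c 0 s) (hc1 : c s = 1) :
    HasDerivAt (fun t => n t / Real.sqrt ((t / r t) ^ 2 + (1 / n t ^ 2 - (t / r t) ^ 2) * c t ^ 2))
      (2 * n s * n') s := by
  have h1 : HasDerivAt (fun t => (t / r t) ^ 2) (2 * (s / r s) * ((1 * r s - s * r') / r s ^ 2)) s := by
    have h0 := ((hasDerivAt_id s).fun_div hr hr0.ne').fun_pow 2
    simpa using h0
  have h2 : HasDerivAt (fun t => 1 / n t ^ 2) (-(2 * n s * n') / (n s ^ 2) ^ 2) s := by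
    have h0 := (hasDerivAt_const s (1 : ℝ)).fun_div (hn.fun_pow 2) (pow_ne_zero 2 hn0.ne')
    simpa using h0
  have h3 : HasDerivAt (fun t => c t ^ 2) 0 s := by
    have h0 := hc.fun_pow 2
    simpa using h0
  have h4 := h1.fun_add ((h2.fun_sub h1).fun_mul h3)
  have hv : (s / r s) ^ 2 + (1 / n s ^ 2 - (s / r s) ^ 2) * c s ^ 2 = (1 / n s) ^ 2 := by
    rw [hc1]
    ring
  have h5 := h4.sqrt (by rw [hv]; positivity)
  have h6 := hn.fun_div h5 (by rw [hv]; positivity)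
  refine h6.congr_deriv ?_
  rw [hv, Real.sqrt_sq (by positivity), hc1]
  field_simp
  ring

lemma ray_calc2 {f n r c : ℝ → ℝ} {s n' r' : ℝ} (hs : 0 < s) (hn0 : 0 < n s)
    (hn : HasDerivAt n n' s) (hr : HasDerivAt r r' s) (hc : HasDerivAt c 0 s) (hc1 : c s = 1)
    (hf : HasDerivAt f (2 * n s * n') s) (hfs : f s = n s ^ 2) :
    HasDerivAt (fun t => f t * ((r t / t) ^ 2 / n t ^ 2 - 1) * c t / t)
      ((2 * r s * r' / s ^ 2 - 2 * r s ^ 2 / s ^ 3 - 2 * n s * n') / s -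
        ((r s / s) ^ 2 - n s ^ 2) / s ^ 2) s := by
  have h1 := ((hr.fun_div (hasDerivAt_id s) hs.ne').fun_pow 2).fun_div (hn.fun_pow 2)
    (pow_ne_zero 2 hn0.ne')
  have h2 := ((hf.fun_mul (h1.sub_const 1)).fun_mul hc).fun_div (hasDerivAt_id s) hs.ne'
  refine (h2.congr_deriv ?_)
  simp only [id]
  rw [hfs, hc1]
  norm_num
  field_simp
  ring

lemma pd_sum_ray {G : E3 → ℝ} (x : E3) : ∑ i, pd i G x * x i = fderiv ℝ G x x := by
  have h1 : x = ∑ i, x i • EuclideanSpace.single i (1 : ℝ) := by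
    ext k
    simp only [Fin.sum_univ_three]
    fin_cases k <;> simp
  have h2 : fderiv ℝ G x x = fderiv ℝ G x (∑ i, x i • EuclideanSpace.single i (1 : ℝ)) :=
    congrArg _ h1
  rw [h2, map_sum]
  refine Finset.sum_congr rfl fun i _ => ?_
  rw [map_smul, smul_eq_mul, pd]
  ring

lemma pd_co (i : Fin 3) (x : E3) : pd i (fun y : E3 => y i) x = 1 := by
  have h1 : HasFDerivAt (fun y : E3 => y i) (EuclideanSpace.proj i : E3 →L[ℝ] ℝ) x :=
    (EuclideanSpace.proj i : E3 →L[ℝ] ℝ).hasFDerivAt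
  rw [pd, h1.fderiv]
  simp

/-- the cosine of the angle between the Euclidean normal of the level sets and the ray -/
noncomputable def cosA (F : E3 → ℝ) (y : E3) : ℝ := ∑ j, nor F j y * (y j / ‖y‖)

/-- an auxiliary function -/
noncomputable def f1 (N : E3 → ℝ) (ρ : ℝ → ℝ) (F : E3 → ℝ) (y : E3) : ℝ :=
  N y / Real.sqrt ((‖y‖ / ρ ‖y‖) ^ 2 + (1 / N y ^ 2 - (‖y‖ / ρ ‖y‖) ^ 2) * cosA F y ^ 2)

/-- an auxiliary function -/
noncomputable def w1 (N : E3 → ℝ) (ρ : ℝ → ℝ) (F : E3 → ℝ) (y : E3) : ℝ :=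
  f1 N ρ F y * ((ρ ‖y‖ / ‖y‖) ^ 2 / N y ^ 2 - 1) * cosA F y / ‖y‖

variable {N : E3 → ℝ} {ρ : ℝ → ℝ} {h : Fin 3 → Fin 3 → E3 → ℝ} {m : ℝ} {F : E3 → ℝ}

lemma norm_id {y : E3} (hy : y ≠ 0) (hN : 0 < N y) (hR : 0 < ρ ‖y‖)
    (hP : 0 < ∑ k, pd k F y ^ 2) (i : Fin 3) :
    dens N ρ y * unitN N ρ F i y = f1 N ρ F y * nor F i y + w1 N ρ F y * y i := by
  have hs := norm_pos_iff.2 hy
  obtain ⟨p, hp⟩ : ∃ p, p = Real.sqrt (∑ k, pd k F y ^ 2) := ⟨_, rfl⟩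
  have hp0 : 0 < p := by
    rw [hp]
    exact Real.sqrt_pos.2 hP
  have hpp : p ^ 2 = ∑ k, pd k F y ^ 2 := by
    rw [hp]
    exact Real.sq_sqrt hP.le
  have hc : ∑ j, pd j F y * y j = cosA F y * (p * ‖y‖) := by
    unfold cosA
    rw [Finset.sum_mul]
    refine Finset.sum_congr rfl fun j _ => ?_
    rw [nor, ← hp]
    field_simp
  have hnum : ∑ j, ginv N ρ i j y * pd j F y = (‖y‖ / ρ ‖y‖) ^ 2 * pd i F y +
      (1 / N y ^ 2 - (‖y‖ / ρ ‖y‖) ^ 2) / ‖y‖ ^ 2 * (y i * ∑ j, pd j F y * y j) := by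
    have h1 : ∀ j, ginv N ρ i j y * pd j F y =
        (‖y‖ / ρ ‖y‖) ^ 2 * ((if i = j then 1 else 0) * pd j F y) +
        (1 / N y ^ 2 - (‖y‖ / ρ ‖y‖) ^ 2) / ‖y‖ ^ 2 * (y i * (pd j F y * y j)) := by
      intro j
      rw [ginv_eq]
      ring
    simp only [h1, Finset.sum_add_distrib, ← Finset.mul_sum]
    simp
  have hgr : gradSq N ρ F y = p ^ 2 * ((‖y‖ / ρ ‖y‖) ^ 2 +
      (1 / N y ^ 2 - (‖y‖ / ρ ‖y‖) ^ 2) * cosA F y ^ 2) := by
    have h1 : gradSq N ρ F y = ∑ i, (∑ j, ginv N ρ i j y * pd j F y) * pd i F y := by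
      unfold gradSq
      refine Finset.sum_congr rfl fun i _ => ?_
      rw [Finset.sum_mul]
      refine Finset.sum_congr rfl fun j _ => ?_
      ring
    have h2 : ∀ i, (∑ j, ginv N ρ i j y * pd j F y) * pd i F y =
        (‖y‖ / ρ ‖y‖) ^ 2 * pd i F y ^ 2 +
        (1 / N y ^ 2 - (‖y‖ / ρ ‖y‖) ^ 2) / ‖y‖ ^ 2 * (∑ j, pd j F y * y j) * (pd i F y * y i) := by
      intro i
      have h3 : ∑ j, ginv N ρ i j y * pd j F y = (‖y‖ / ρ ‖y‖) ^ 2 * pd i F y +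
          (1 / N y ^ 2 - (‖y‖ / ρ ‖y‖) ^ 2) / ‖y‖ ^ 2 * (y i * ∑ j, pd j F y * y j) := by
        have h1 : ∀ j, ginv N ρ i j y * pd j F y =
            (‖y‖ / ρ ‖y‖) ^ 2 * ((if i = j then 1 else 0) * pd j F y) +
            (1 / N y ^ 2 - (‖y‖ / ρ ‖y‖) ^ 2) / ‖y‖ ^ 2 * (y i * (pd j F y * y j)) := by
          intro j
          rw [ginv_eq]
          ring
        simp only [h1, Finset.sum_add_distrib, ← Finset.mul_sum]
        simp
      rw [h3]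
      ring
    rw [h1, Finset.sum_congr rfl fun i _ => h2 i, Finset.sum_add_distrib, ← Finset.mul_sum,
      ← Finset.mul_sum, ← hpp, hc]
    field_simp
  have hsq : Real.sqrt (gradSq N ρ F y) = p * Real.sqrt ((‖y‖ / ρ ‖y‖) ^ 2 +
      (1 / N y ^ 2 - (‖y‖ / ρ ‖y‖) ^ 2) * cosA F y ^ 2) := by
    rw [hgr, Real.sqrt_mul (sq_nonneg p), Real.sqrt_sq hp0.le]
  unfold unitN
  rw [hnum, hsq, hc]
  unfold dens w1 f1 nor
  rw [← hp]
  generalize Real.sqrt ((‖y‖ / ρ ‖y‖) ^ 2 +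
      (1 / N y ^ 2 - (‖y‖ / ρ ‖y‖) ^ 2) * cosA F y ^ 2) = q
  by_cases hq : q = 0
  · rw [hq]
    simp
  · field_simp

end Pool.Agent.H921.QP
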