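import Pool.Agent.H921.QP.Hor1

/-!
# Surfaces in quasi-spherical data: comparison at the farthest point, II
-/

set_option autoImplicit false

namespace Pool.Agent.H921.QP

open Filter Topology MeasureTheory Pool.Agent.N795.PI Pool.Agent.N774.PIA

variable {N : E3 → ℝ} {ρ : ℝ → ℝ} {h : Fin 3 → Fin 3 → E3 → ℝ} {m : ℝ} {F : E3 → ℝ}

lemma sum_pos_of {x : E3} (hx : x ≠ 0) (hn : ∀ i, nor F i x = x i / ‖x‖) :
    0 < ∑ k, pd k F x ^ 2 := by
  have hxp : 0 < ‖x‖ := norm_pos_iff.2 hx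
  by_contra hcon
  have h0 : ∑ k, pd k F x ^ 2 = 0 :=
    le_antisymm (not_lt.1 hcon) (Finset.sum_nonneg fun _ _ => sq_nonneg _)
  have h1 : ∀ k, nor F k x = 0 := fun k => by
    rw [nor, h0, Real.sqrt_zero, div_zero]
  have h2 : ∀ k, x k = 0 := fun k => by
    have := hn k
    rw [h1 k] at this
    have h3 := (div_eq_zero_iff.1 this.symm)
    rcases h3 with h3 | h3
    · exact h3
    · exact absurd h3 hxp.ne'
  exact hx (by ext k; simpa using h2 k)

lemma d_pd {x : E3} (hF : ContDiffAt ℝ 2 F x) (i : Fin 3) : DifferentiableAt ℝ (pd i F) x := by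
  have h1 : ContDiffAt ℝ 1 (fderiv ℝ F) x := hF.fderiv_right (by norm_num)
  have h2 := (h1.differentiableAt (by norm_num)).clm_apply
    (differentiableAt_const (EuclideanSpace.single i (1 : ℝ)))
  exact h2

lemma d_sum {x : E3} (hF : ContDiffAt ℝ 2 F x) :
    DifferentiableAt ℝ (fun y => ∑ k, pd k F y ^ 2) x :=
  DifferentiableAt.fun_sum fun k _ => (d_pd hF k).pow 2

lemma d_nor {x : E3} (hF : ContDiffAt ℝ 2 F x) (hsum : 0 < ∑ k, pd k F x ^ 2) (i : Fin 3) :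
    DifferentiableAt ℝ (nor F i) x := by
  have h2 : DifferentiableAt ℝ (fun y => Real.sqrt (∑ k, pd k F y ^ 2)) x :=
    (d_sum hF).sqrt hsum.ne'
  have h4 : DifferentiableAt ℝ (fun y => (Real.sqrt (∑ k, pd k F y ^ 2))⁻¹) x := by
    have h5 := (hasDerivAt_inv (Real.sqrt_pos.2 hsum).ne').comp_hasFDerivAt x h2.hasFDerivAt
    exact h5.differentiableAt
  have h3 : DifferentiableAt ℝ (fun y => pd i F y * (Real.sqrt (∑ k, pd k F y ^ 2))⁻¹) x :=
    (d_pd hF i).fun_mul h4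
  exact h3

lemma ev_pos {x : E3} (hF : ContDiffAt ℝ 2 F x) (hsum : 0 < ∑ k, pd k F x ^ 2) :
    ∀ᶠ y in 𝓝 x, 0 < ∑ k, pd k F y ^ 2 :=
  (d_sum hF).continuousAt.eventually (lt_mem_nhds hsum)

lemma nor_sq {y : E3} (hP : 0 < ∑ k, pd k F y ^ 2) : ∑ j, nor F j y ^ 2 = 1 := by
  have h1 : ∀ j, nor F j y ^ 2 = pd j F y ^ 2 / (∑ k, pd k F y ^ 2) := by
    intro j
    rw [nor, div_pow, Real.sq_sqrt hP.le]
  simp only [h1]
  rw [← Finset.sum_div, div_self hP.ne']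

lemma d_norm {x : E3} (hx : x ≠ 0) : DifferentiableAt ℝ (fun y : E3 => ‖y‖) x := by
  have h1 : ContDiffAt ℝ 1 (fun y : E3 => ‖y‖) x := contDiffAt_norm ℝ hx
  exact h1.differentiableAt (by norm_num)

lemma d_co (j : Fin 3) (x : E3) : DifferentiableAt ℝ (fun y : E3 => y j) x :=
  (co j x).differentiableAt (by norm_num)

lemma d_dir (j : Fin 3) {x : E3} (hx : x ≠ 0) : DifferentiableAt ℝ (fun y : E3 => y j / ‖y‖) x := by
  have h1 := (d_co j x).fun_mul ((d_norm hx).fun_inv (norm_ne_zero_iff.2 hx))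
  have h2 : (fun y : E3 => y j / ‖y‖) = fun y : E3 => y j * (‖y‖)⁻¹ := by
    funext y
    rw [div_eq_mul_inv]
  rw [h2]
  exact h1

lemma d_cosA {x : E3} (hx : x ≠ 0) (hF : ContDiffAt ℝ 2 F x) (hsum : 0 < ∑ k, pd k F x ^ 2) :
    DifferentiableAt ℝ (cosA F) x := by
  have h1 : DifferentiableAt ℝ (fun y => ∑ j, nor F j y * (y j / ‖y‖)) x :=
    DifferentiableAt.fun_sum fun j _ => (d_nor hF hsum j).fun_mul (d_dir j hx)
  exact h1

lemma sq_dir {x : E3} (hx : x ≠ 0) : ∑ j, (x j / ‖x‖) * (x j / ‖x‖) = 1 := by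
  have hxp : ‖x‖ ≠ 0 := norm_ne_zero_iff.2 hx
  have h1 := norm_sq3 x
  simp only [Fin.sum_univ_three]
  field_simp
  linarith

lemma cosA_one {x : E3} (hx : x ≠ 0) (hn : ∀ i, nor F i x = x i / ‖x‖) : cosA F x = 1 := by
  unfold cosA
  simp only [hn]
  exact sq_dir hx

lemma norm_ray {x : E3} (hx : x ≠ 0) {s : ℝ} (hs : 0 < s) : ‖(s / ‖x‖) • x‖ = s := by
  have hn := norm_pos_iff.2 hx
  rw [norm_smul, Real.norm_eq_abs, abs_of_pos (div_pos hs hn), div_mul_cancel₀ _ hn.ne']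

lemma dr_cosA {x : E3} (hx : x ≠ 0) (hF : ContDiffAt ℝ 2 F x) (hn : ∀ i, nor F i x = x i / ‖x‖) :
    HasDerivAt (fun s : ℝ => cosA F ((s / ‖x‖) • x)) 0 ‖x‖ := by
  have hxp : 0 < ‖x‖ := norm_pos_iff.2 hx
  have hsum := sum_pos_of hx hn
  have h1 : ∀ j, HasDerivAt (fun s : ℝ => nor F j ((s / ‖x‖) • x)) (dr (nor F j) x) ‖x‖ :=
    fun j => ray_deriv hx (d_nor hF hsum j)
  have hone : (‖x‖ / ‖x‖) • x = x := by rw [div_self hxp.ne', one_smul]
  -- the normal has length one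
  have h2 : HasDerivAt (fun s : ℝ => ∑ j, nor F j ((s / ‖x‖) • x) ^ 2)
      (∑ j, 2 * nor F j x * dr (nor F j) x) ‖x‖ := by
    have h0 := HasDerivAt.fun_sum (u := Finset.univ) fun j _ => (h1 j).fun_pow 2
    refine h0.congr_deriv ?_
    refine Finset.sum_congr rfl fun j _ => ?_
    rw [hone]
    norm_num
  have hline : Tendsto (fun s : ℝ => (s / ‖x‖) • x) (𝓝 ‖x‖) (𝓝 x) := by
    have h0 : Continuous fun s : ℝ => (s / ‖x‖) • x :=
      (continuous_id.div_const ‖x‖).smul continuous_const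
    have h3 := h0.tendsto ‖x‖
    rwa [hone] at h3
  have h3 : (fun s : ℝ => ∑ j, nor F j ((s / ‖x‖) • x) ^ 2) =ᶠ[𝓝 ‖x‖] fun _ => (1 : ℝ) := by
    filter_upwards [hline.eventually (ev_pos hF hsum)] with s hs
    exact nor_sq hs
  have h4 : ∑ j, 2 * nor F j x * dr (nor F j) x = 0 :=
    (h2.congr_of_eventuallyEq h3.symm).unique (hasDerivAt_const _ _)
  have h5 : HasDerivAt (fun s : ℝ => ∑ j, nor F j ((s / ‖x‖) • x) * (x j / ‖x‖))
      (∑ j, dr (nor F j) x * (x j / ‖x‖)) ‖x‖ :=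
    HasDerivAt.fun_sum fun j _ => (h1 j).mul_const _
  have h6 : ∑ j, dr (nor F j) x * (x j / ‖x‖) = 0 := by
    have h7 : ∑ j, 2 * nor F j x * dr (nor F j) x = 2 * ∑ j, dr (nor F j) x * (x j / ‖x‖) := by
      rw [Finset.mul_sum]
      refine Finset.sum_congr rfl fun j _ => ?_
      rw [hn j]
      ring
    rw [h7] at h4
    linarith
  rw [h6] at h5
  refine h5.congr_of_eventuallyEq ?_
  filter_upwards [lt_mem_nhds hxp] with s hs
  unfold cosA
  refine Finset.sum_congr rfl fun j _ => ?_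
  rw [norm_ray hx hs]
  have h8 : ((s / ‖x‖) • x : E3) j = s / ‖x‖ * x j := rfl
  rw [h8]
  field_simp

end Pool.Agent.H921.QP
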