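import Pool.Agent.H921.QP.Hor2

/-!
# Surfaces in quasi-spherical data: comparison at the farthest point, III
-/

set_option autoImplicit false

namespace Pool.Agent.H921.QP

open Filter Topology MeasureTheory Pool.Agent.N795.PI Pool.Agent.N774.PIA

variable {N : E3 → ℝ} {ρ : ℝ → ℝ} {h : Fin 3 → Fin 3 → E3 → ℝ} {m : ℝ} {F : E3 → ℝ}

lemma d_div {f g : E3 → ℝ} {x : E3} (hf : DifferentiableAt ℝ f x) (hg : DifferentiableAt ℝ g x)
    (h0 : g x ≠ 0) : DifferentiableAt ℝ (fun y => f y / g y) x := by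
  have h1 := hf.fun_mul (hg.fun_inv h0)
  have h2 : (fun y => f y / g y) = fun y => f y * (g y)⁻¹ := by
    funext y
    rw [div_eq_mul_inv]
  rw [h2]
  exact h1

lemma q_one {x : E3} (hx : x ≠ 0) (hn : ∀ i, nor F i x = x i / ‖x‖) :
    (‖x‖ / ρ ‖x‖) ^ 2 + (1 / N x ^ 2 - (‖x‖ / ρ ‖x‖) ^ 2) * cosA F x ^ 2 = (1 / N x) ^ 2 := by
  rw [cosA_one hx hn]
  ring

section
variable (D : IsQData N ρ h m)
include D

lemma IsQData.d_rho {x : E3} (hx : x ≠ 0) : DifferentiableAt ℝ (fun y : E3 => ρ ‖y‖) x :=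
  (D.cRn hx).differentiableAt (by norm_num)

lemma IsQData.d_f1 {x : E3} (hx : x ≠ 0) (hF : ContDiffAt ℝ 2 F x)
    (hn : ∀ i, nor F i x = x i / ‖x‖) : DifferentiableAt ℝ (f1 N ρ F) x := by
  have hN := D.posN x hx
  have hR := D.posR _ (norm_pos_iff.2 hx)
  have hN2 : N x ^ 2 ≠ 0 := pow_ne_zero 2 hN.ne'
  have e1 : DifferentiableAt ℝ (fun y : E3 => (‖y‖ / ρ ‖y‖) ^ 2) x :=
    (d_div (d_norm hx) (D.d_rho hx) hR.ne').fun_pow 2
  have e2 : DifferentiableAt ℝ (fun y : E3 => 1 / N y ^ 2) x :=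
    d_div (differentiableAt_const (1 : ℝ)) ((D.dN hx).fun_pow 2) hN2
  have e3 : DifferentiableAt ℝ (fun y : E3 => cosA F y ^ 2) x :=
    (d_cosA hx hF (sum_pos_of hx hn)).fun_pow 2
  have e4 : DifferentiableAt ℝ (fun y : E3 => (‖y‖ / ρ ‖y‖) ^ 2 +
      (1 / N y ^ 2 - (‖y‖ / ρ ‖y‖) ^ 2) * cosA F y ^ 2) x :=
    e1.fun_add ((e2.fun_sub e1).fun_mul e3)
  have hq := q_one (N := N) (ρ := ρ) hx hn
  have e5 := e4.sqrt (by
    rw [hq]
    positivity)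
  exact d_div (D.dN hx) e5 (by
    rw [hq]
    positivity)

lemma IsQData.f1_val {x : E3} (hx : x ≠ 0) (hn : ∀ i, nor F i x = x i / ‖x‖) :
    f1 N ρ F x = N x ^ 2 := by
  have hN := D.posN x hx
  rw [f1, q_one hx hn, Real.sqrt_sq (by positivity)]
  field_simp

lemma IsQData.w1_val {x : E3} (hx : x ≠ 0) (hn : ∀ i, nor F i x = x i / ‖x‖) :
    w1 N ρ F x = ((ρ ‖x‖ / ‖x‖) ^ 2 - N x ^ 2) / ‖x‖ := by
  have hN := D.posN x hx
  rw [w1, D.f1_val hx hn, cosA_one hx hn]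
  field_simp

lemma IsQData.d_w1 {x : E3} (hx : x ≠ 0) (hF : ContDiffAt ℝ 2 F x)
    (hn : ∀ i, nor F i x = x i / ‖x‖) : DifferentiableAt ℝ (w1 N ρ F) x := by
  have hN := D.posN x hx
  have hN2 : N x ^ 2 ≠ 0 := pow_ne_zero 2 hN.ne'
  have hxn : ‖x‖ ≠ 0 := norm_ne_zero_iff.2 hx
  have e1 : DifferentiableAt ℝ (fun y : E3 => (ρ ‖y‖ / ‖y‖) ^ 2) x :=
    (d_div (D.d_rho hx) (d_norm hx) hxn).fun_pow 2
  have e2 : DifferentiableAt ℝ (fun y : E3 => (ρ ‖y‖ / ‖y‖) ^ 2 / N y ^ 2 - 1) x :=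
    (d_div e1 ((D.dN hx).fun_pow 2) hN2).sub_const 1
  exact d_div (((D.d_f1 hx hF hn).fun_mul e2).fun_mul (d_cosA hx hF (sum_pos_of hx hn)))
    (d_norm hx) hxn

lemma IsQData.dr_f1 {x : E3} (hx : x ≠ 0) (hF : ContDiffAt ℝ 2 F x)
    (hn : ∀ i, nor F i x = x i / ‖x‖) :
    HasDerivAt (fun s : ℝ => f1 N ρ F ((s / ‖x‖) • x)) (2 * N x * dr N x) ‖x‖ := by
  have hxp : 0 < ‖x‖ := norm_pos_iff.2 hx
  have hone : (‖x‖ / ‖x‖) • x = x := by rw [div_self hxp.ne', one_smul]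
  have h1 := ray_calc1 (n := fun s : ℝ => N ((s / ‖x‖) • x)) (r := ρ)
    (c := fun s : ℝ => cosA F ((s / ‖x‖) • x)) (s := ‖x‖)
    (by simp only [hone]; exact D.posN x hx) (D.posR _ hxp) (ray_deriv hx (D.dN hx)) (D.hR hxp)
    (dr_cosA hx hF hn) (by simp only [hone]; exact cosA_one hx hn)
  simp only [hone] at h1
  refine h1.congr_of_eventuallyEq ?_
  filter_upwards [lt_mem_nhds hxp] with s hs
  rw [f1, norm_ray hx hs]

lemma IsQData.dr_w1 {x : E3} (hx : x ≠ 0) (hF : ContDiffAt ℝ 2 F x)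
    (hn : ∀ i, nor F i x = x i / ‖x‖) :
    HasDerivAt (fun s : ℝ => w1 N ρ F ((s / ‖x‖) • x))
      ((2 * ρ ‖x‖ * deriv ρ ‖x‖ / ‖x‖ ^ 2 - 2 * ρ ‖x‖ ^ 2 / ‖x‖ ^ 3 - 2 * N x * dr N x) / ‖x‖ -
        ((ρ ‖x‖ / ‖x‖) ^ 2 - N x ^ 2) / ‖x‖ ^ 2) ‖x‖ := by
  have hxp : 0 < ‖x‖ := norm_pos_iff.2 hx
  have hone : (‖x‖ / ‖x‖) • x = x := by rw [div_self hxp.ne', one_smul]
  have h1 := ray_calc2 (f := fun s : ℝ => f1 N ρ F ((s / ‖x‖) • x))
    (n := fun s : ℝ => N ((s / ‖x‖) • x)) (r := ρ)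
    (c := fun s : ℝ => cosA F ((s / ‖x‖) • x)) (s := ‖x‖) (n' := dr N x) hxp
    (by simp only [hone]; exact D.posN x hx) (ray_deriv hx (D.dN hx)) (D.hR hxp)
    (dr_cosA hx hF hn) (by simp only [hone]; exact cosA_one hx hn)
    (by simp only [hone]; exact D.dr_f1 hx hF hn) (by simp only [hone]; exact D.f1_val hx hn)
  simp only [hone] at h1
  refine h1.congr_of_eventuallyEq ?_
  filter_upwards [lt_mem_nhds hxp] with s hs
  rw [w1, norm_ray hx hs]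

/-- the mean curvature of the surface at the farthest point -/
theorem IsQData.div_val {x : E3} (hx : x ≠ 0) (hF : ContDiffAt ℝ 2 F x)
    (hn : ∀ i, nor F i x = x i / ‖x‖) :
    ∑ i, pd i (fun y => dens N ρ y * unitN N ρ F i y) x =
      N x ^ 2 * (∑ i, pd i (nor F i) x - 2 / ‖x‖) + 2 * ρ ‖x‖ * deriv ρ ‖x‖ / ‖x‖ ^ 2 := by
  have hxp : 0 < ‖x‖ := norm_pos_iff.2 hx
  have hsum := sum_pos_of hx hn
  have hf1 := D.d_f1 hx hF hn
  have hw1 := D.d_w1 hx hF hn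
  have h1 : ∀ i, pd i (fun y => dens N ρ y * unitN N ρ F i y) x =
      (1 / ‖x‖) * (pd i (f1 N ρ F) x * x i) + N x ^ 2 * pd i (nor F i) x +
        (pd i (w1 N ρ F) x * x i + ((ρ ‖x‖ / ‖x‖) ^ 2 - N x ^ 2) / ‖x‖) := by
    intro i
    have e1 : (fun y => dens N ρ y * unitN N ρ F i y) =ᶠ[𝓝 x]
        fun y => f1 N ρ F y * nor F i y + w1 N ρ F y * y i := by
      filter_upwards [ev_pos hF hsum, isOpen_ne.mem_nhds hx] with y hy hy0
      exact norm_id hy0 (D.posN y hy0) (D.posR _ (norm_pos_iff.2 hy0)) hy i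
    have e2 : pd i (fun y => dens N ρ y * unitN N ρ F i y) x =
        pd i (fun y => f1 N ρ F y * nor F i y + w1 N ρ F y * y i) x := by
      unfold pd
      rw [e1.fderiv_eq]
    have e3 : pd i (fun y => f1 N ρ F y * nor F i y + w1 N ρ F y * y i) x =
        pd i (fun y => f1 N ρ F y * nor F i y) x + pd i (fun y => w1 N ρ F y * y i) x := by
      unfold pd
      rw [fderiv_fun_add (hf1.fun_mul (d_nor hF hsum i)) (hw1.fun_mul (d_co i x))]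
      rfl
    rw [e2, e3, pd_mul' hf1 (d_nor hF hsum i), pd_mul' hw1 (d_co i x), pd_co, hn i,
      D.f1_val hx hn, D.w1_val hx hn]
    ring
  have hdf : fderiv ℝ (f1 N ρ F) x x = ‖x‖ * (2 * N x * dr N x) := by
    have e1 := (ray_deriv hx hf1).unique (D.dr_f1 hx hF hn)
    rw [← e1, dr]
    field_simp
  have hdw : fderiv ℝ (w1 N ρ F) x x = ‖x‖ * ((2 * ρ ‖x‖ * deriv ρ ‖x‖ / ‖x‖ ^ 2 -
      2 * ρ ‖x‖ ^ 2 / ‖x‖ ^ 3 - 2 * N x * dr N x) / ‖x‖ -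
        ((ρ ‖x‖ / ‖x‖) ^ 2 - N x ^ 2) / ‖x‖ ^ 2) := by
    have e1 := (ray_deriv hx hw1).unique (D.dr_w1 hx hF hn)
    rw [← e1, dr]
    field_simp
  rw [Finset.sum_congr rfl fun i _ => h1 i, Finset.sum_add_distrib, Finset.sum_add_distrib,
    Finset.sum_add_distrib, ← Finset.mul_sum, ← Finset.mul_sum, pd_sum_ray, pd_sum_ray, hdf, hdw]
  simp only [Finset.sum_const, Finset.card_univ, Fintype.card_fin, nsmul_eq_mul]
  push_cast
  field_simp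
  ring

/-- the unit normal at the farthest point -/
lemma IsQData.unit_val {x : E3} (hx : x ≠ 0)
    (hn : ∀ i, nor F i x = x i / ‖x‖) (i : Fin 3) : unitN N ρ F i x = x i / (‖x‖ * N x) := by
  have hxp : 0 < ‖x‖ := norm_pos_iff.2 hx
  have hN := D.posN x hx
  have hR := D.posR _ hxp
  have h1 := norm_id (N := N) (ρ := ρ) hx hN hR (sum_pos_of hx hn) i
  rw [D.f1_val hx hn, D.w1_val hx hn, hn i, dens] at h1
  have h2 : N x * (ρ ‖x‖ / ‖x‖) ^ 2 ≠ 0 := by positivity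
  have h3 : unitN N ρ F i x = (N x ^ 2 * (x i / ‖x‖) +
      ((ρ ‖x‖ / ‖x‖) ^ 2 - N x ^ 2) / ‖x‖ * x i) / (N x * (ρ ‖x‖ / ‖x‖) ^ 2) := by
    rw [eq_div_iff h2, ← h1]
    ring
  rw [h3]
  field_simp
  ring

lemma IsQData.trSig_val {x : E3} (hx : x ≠ 0) (hn : ∀ i, nor F i x = x i / ‖x‖) :
    trSig N ρ h F x = trSph ρ h x := by
  have hxp : 0 < ‖x‖ := norm_pos_iff.2 hx
  have hN := D.posN x hx
  have h1 : ∑ i, ∑ j, h i j x * unitN N ρ F i x * unitN N ρ F j x = hnu N h x := by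
    rw [hnu, lam, Finset.sum_div, Finset.sum_div]
    refine Finset.sum_congr rfl fun i _ => ?_
    rw [Finset.sum_div, Finset.sum_div]
    refine Finset.sum_congr rfl fun j _ => ?_
    rw [D.unit_val hx hn i, D.unit_val hx hn j]
    field_simp
  rw [trSig, h1, tr_eq]
  ring

/-- comparison at the farthest point of a surface -/
theorem IsQData.far_trapped {x : E3} (hx : x ≠ 0) (hF : ContDiffAt ℝ 2 F x)
    (hF0 : F x = 0) (hreg : fderiv ℝ F x ≠ 0) (hfar : ∀ y, ‖x‖ ≤ ‖y‖ → 0 ≤ F y)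
    (hH : meanC N ρ F x ≤ |trSig N ρ h F x|) :
    deriv ρ ‖x‖ ≤ ρ ‖x‖ * |bet N ρ h ‖x‖| := by
  have hxp : 0 < ‖x‖ := norm_pos_iff.2 hx
  have hN := D.posN x hx
  have hR := D.posR _ hxp
  obtain ⟨hn, hc⟩ := mc_pf F x hx hF hF0 hreg hfar
  have hn' : ∀ i, nor F i x = x i / ‖x‖ := hn
  have hc' : 2 / ‖x‖ ≤ ∑ i, pd i (nor F i) x := hc
  have h1 : Hs N ρ x ≤ meanC N ρ F x := by
    rw [meanC, D.div_val hx hF hn', Hs, dens, div_le_div_iff₀ (by positivity) (by positivity)]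
    have h2 : 0 ≤ N x ^ 2 * (∑ i, pd i (nor F i) x - 2 / ‖x‖) :=
      mul_nonneg (sq_nonneg _) (by linarith)
    have h3 : 2 * deriv ρ ‖x‖ * (N x * (ρ ‖x‖ / ‖x‖) ^ 2) =
        (2 * ρ ‖x‖ * deriv ρ ‖x‖ / ‖x‖ ^ 2) * (ρ ‖x‖ * N x) := by
      field_simp
    rw [h3]
    refine mul_le_mul_of_nonneg_right ?_ (by positivity)
    linarith
  rw [D.trSig_val hx hn'] at hH
  by_contra hcon
  exact absurd ((D.tr_lt hx).2 (not_le.1 hcon)) (not_lt.2 (h1.trans hH))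

end

end Pool.Agent.H921.QP
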