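import Pool.Agent.H921.QP.Hor3

/-!
# Surfaces in quasi-spherical data: the last trapped sphere
-/

set_option autoImplicit false

namespace Pool.Agent.H921.QP

open Filter Topology MeasureTheory Pool.Agent.N795.PI Pool.Agent.N774.PIA

variable {N : E3 → ℝ} {ρ : ℝ → ℝ} {h : Fin 3 → Fin 3 → E3 → ℝ} {m : ℝ} {F : E3 → ℝ}

/-- A surface `Σ = {x ≠ 0 : F x = 0}`, the boundary of the bounded region `Ω = {x ≠ 0 : F x < 0}`,
with `H ≤ |tr h|` on `Σ`. An apparent horizon has `H = tr h`. -/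
structure IsTrapped (N : E3 → ℝ) (ρ : ℝ → ℝ) (h : Fin 3 → Fin 3 → E3 → ℝ) (F : E3 → ℝ) : Prop where
  /-- smooth -/
  smooth : ∀ x, x ≠ 0 → ContDiffAt ℝ 2 F x
  /-- not empty -/
  nonempty : ∃ x, x ≠ 0 ∧ F x = 0
  /-- the designated end is outside -/
  outer : ∃ R : ℝ, ∀ x, R ≤ ‖x‖ → 0 < F x
  /-- regular level set -/
  regular : ∀ x, x ≠ 0 → F x = 0 → fderiv ℝ F x ≠ 0
  /-- `H ≤ |tr h|` -/
  le : ∀ x, x ≠ 0 → F x = 0 → meanC N ρ F x ≤ |trSig N ρ h F x|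

/-- The sphere of radius `t` encloses the surface `F = 0`. -/
def Encl (F : E3 → ℝ) (t : ℝ) : Prop := 0 < t ∧ ∀ x, x ≠ 0 → F x < 0 → ‖x‖ < t

section
variable (D : IsQData N ρ h m)
include D

theorem IsQData.last_of {s0 : ℝ} (hs0p : 0 < s0) (hs0 : deriv ρ s0 ≤ ρ s0 * |bet N ρ h s0|) :
    ∃ t1 : ℝ, s0 ≤ t1 ∧
    deriv ρ t1 = ρ t1 * |bet N ρ h t1| ∧ ∀ t, t1 < t → ρ t * |bet N ρ h t| < deriv ρ t := by
  obtain ⟨K, T, hK, hT, -, hb⟩ := D.bet_bound
  have cg : ∀ t, 0 < t → ContinuousAt (fun t => deriv ρ t - ρ t * |bet N ρ h t|) t := fun t ht =>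
    (D.hdR ht).continuousAt.sub ((D.hR ht).continuousAt.mul (D.hbet ht).continuousAt.abs)
  set S : Set ℝ := {t | 0 < t ∧ deriv ρ t - ρ t * |bet N ρ h t| ≤ 0} with hS
  have hbdd : BddAbove S := by
    refine ⟨max T K + 1, fun t ht => ?_⟩
    by_contra hlt
    have h1 : max T K + 1 < t := not_le.1 hlt
    have h2 : T < t := by linarith [le_max_left T K]
    have h3 : K + 1 < t := by linarith [le_max_right T K]
    obtain ⟨e1, e2, e3⟩ := hb t h2
    have ht0 : 0 < t := ht.1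
    have h4 : t * |bet N ρ h t| ≤ K / t := by
      calc t * |bet N ρ h t| ≤ t * (K / t ^ 2) := by gcongr
        _ = K / t := by field_simp
    have h5 : K / t < 1 := by
      rw [div_lt_one ht0]
      linarith
    have h6 := ht.2
    rw [e1, e2] at h6
    linarith
  have hs0' : s0 ∈ S := ⟨hs0p, by linarith⟩
  set t1 := sSup S with ht1
  have hs1 : s0 ≤ t1 := le_csSup hbdd hs0'
  have ht1pos : 0 < t1 := hs0p.trans_le hs1
  have hafter : ∀ t, t1 < t → 0 < deriv ρ t - ρ t * |bet N ρ h t| := by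
    intro t ht
    by_contra hcon
    have h1 : t ∈ S := ⟨ht1pos.trans ht, not_lt.1 hcon⟩
    exact absurd (le_csSup hbdd h1) (not_le.2 ht)
  have hle : deriv ρ t1 - ρ t1 * |bet N ρ h t1| ≤ 0 := by
    have hcl : t1 ∈ closure S := csSup_mem_closure ⟨s0, hs0'⟩ hbdd
    obtain ⟨u, hu1, hu2⟩ := mem_closure_iff_seq_limit.1 hcl
    have h1 := (cg t1 ht1pos).tendsto.comp hu2
    exact le_of_tendsto h1 (Eventually.of_forall fun n => (hu1 n).2)
  have hge : 0 ≤ deriv ρ t1 - ρ t1 * |bet N ρ h t1| := by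
    have h1 : Tendsto (fun t => deriv ρ t - ρ t * |bet N ρ h t|) (𝓝[>] t1)
        (𝓝 (deriv ρ t1 - ρ t1 * |bet N ρ h t1|)) :=
      (cg t1 ht1pos).tendsto.mono_left nhdsWithin_le_nhds
    refine ge_of_tendsto h1 ?_
    filter_upwards [self_mem_nhdsWithin] with t ht
    exact (hafter t ht).le
  exact ⟨t1, hs1, by linarith, fun t ht => by linarith [hafter t ht]⟩

theorem IsQData.horizon (hflux : ∀ T : ℝ, (∀ t, T ≤ t → ρ t = t) → ∀ t, 0 < t → T < t →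
      flux N ρ t = mean (fun x => t / 2 * (N x ^ 2 - 1)) t) (hF : IsTrapped N ρ h F) :
    ∃ t1 : ℝ, Encl F t1 ∧ (∀ x : E3, x ≠ 0 → F x = 0 → ‖x‖ ≤ t1) ∧
      (∀ x : E3, ‖x‖ = t1 → |trSph ρ h x| = Hs N ρ x) ∧
      (∀ x : E3, t1 < ‖x‖ → |trSph ρ h x| < Hs N ρ x) ∧ ρ t1 / 2 ≤ m := by
  obtain ⟨x, hx, hx0, hfar, hfar'⟩ := far_pf F (fun x hx => (hF.smooth x hx).continuousAt)
    hF.nonempty hF.outer
  have hxp : 0 < ‖x‖ := norm_pos_iff.2 hx
  have hxt := D.far_trapped hx (hF.smooth x hx) hx0 (hF.regular x hx hx0) hfar (hF.le x hx hx0)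
  obtain ⟨t1, hle, he, haft⟩ := D.last_of hxp hxt
  have ht1 : 0 < t1 := hxp.trans_le hle
  have hm := D.main_of hflux ht1 he haft
  refine ⟨t1, ⟨ht1, fun y _ hy => ?_⟩, fun y _ hy => ?_, fun y hy => ?_, fun y hy => ?_, hm⟩
  · by_contra hcon
    exact absurd (hfar y (hle.trans (not_lt.1 hcon))) (not_le.2 hy)
  · by_contra hcon
    have h1 := hfar' y (lt_of_le_of_lt hle (not_le.1 hcon))
    rw [hy] at h1
    exact lt_irrefl _ h1
  · have hy0 : y ≠ 0 := by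
      rw [← norm_pos_iff, hy]
      exact ht1
    exact D.tr_eq_of hy0 (by rw [hy]; exact he)
  · have hy0 : y ≠ 0 := by
      rw [← norm_pos_iff]
      exact ht1.trans hy
    exact (D.tr_lt hy0).2 (haft _ hy)

end

end Pool.Agent.H921.QP
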