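import Pool.Agent.H921.QP.Alg

/-!
# Quasi-spherical data: pointwise identities
-/

set_option autoImplicit false

namespace Pool.Agent.H921.QP

open Filter Topology MeasureTheory Pool.Agent.N795.PI Pool.Agent.N774.PIA

lemma pd_mul' {F G : E3 → ℝ} {x : E3} (hF : DifferentiableAt ℝ F x) (hG : DifferentiableAt ℝ G x)
    (i : Fin 3) : pd i (fun y => F y * G y) x = pd i F x * G x + F x * pd i G x := by
  unfold pd
  rw [show (fun y => F y * G y) = F * G from rfl, fderiv_mul hF hG]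
  simp only [add_apply, smul_apply, smul_eq_mul]
  ring

lemma pd_div' {F G : E3 → ℝ} {x : E3} (hF : DifferentiableAt ℝ F x) (hG : DifferentiableAt ℝ G x)
    (h0 : G x ≠ 0) (i : Fin 3) :
    pd i (fun y => F y / G y) x = pd i F x / G x - F x * pd i G x / G x ^ 2 := by
  have hd : DifferentiableAt ℝ (fun y => F y / G y) x := by
    have h := hF.mul (hG.inv h0)
    exact h
  have h1 := pd_mul' hd hG i
  have h2 : ContinuousAt G x := hG.continuousAt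
  have h3 : (fun y => F y / G y * G y) =ᶠ[𝓝 x] F := by
    filter_upwards [h2.eventually_ne h0] with y hy
    exact div_mul_cancel₀ _ hy
  have h4 : pd i (fun y => F y / G y * G y) x = pd i F x := by
    unfold pd
    rw [h3.fderiv_eq]
  rw [h4] at h1
  have h5 : pd i (fun y => F y / G y) x = (pd i F x - F x / G x * pd i G x) / G x := by
    rw [eq_div_iff h0]
    linear_combination -h1
  rw [h5]
  field_simp

lemma rot_div' {F G : E3 → ℝ} {x : E3} (hF : DifferentiableAt ℝ F x) (hG : DifferentiableAt ℝ G x)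
    (h0 : G x ≠ 0) (i j : Fin 3) :
    rot i j (fun y => F y / G y) x = rot i j F x / G x - F x * rot i j G x / G x ^ 2 := by
  unfold rot
  rw [pd_div' hF hG h0, pd_div' hF hG h0]
  ring

/-- the ray derivative -/
lemma ray_deriv {F : E3 → ℝ} {x : E3} (hx : x ≠ 0) (hF : DifferentiableAt ℝ F x) :
    HasDerivAt (fun s : ℝ => F ((s / ‖x‖) • x)) (dr F x) ‖x‖ := by
  have hn : ‖x‖ ≠ 0 := norm_ne_zero_iff.2 hx
  have h1 : HasDerivAt (fun s : ℝ => (s / ‖x‖) • x) ((1 / ‖x‖) • x) ‖x‖ :=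
    ((hasDerivAt_id ‖x‖).div_const ‖x‖).smul_const x
  have h2 : HasFDerivAt F (fderiv ℝ F x) ((‖x‖ / ‖x‖) • x) := by
    rw [div_self hn, one_smul]
    exact hF.hasFDerivAt
  have h3 := h2.comp_hasDerivAt ‖x‖ h1
  have h4 : (fderiv ℝ F x) ((1 / ‖x‖) • x) = dr F x := by
    rw [map_smul, smul_eq_mul]
    unfold dr
    ring
  rw [h4] at h3
  exact h3

lemma quad_pos (p V x : Fin 3 → ℝ) (t r1 c : ℝ) (ht : 0 < t)
    (hn : t ^ 2 = x 0 ^ 2 + x 1 ^ 2 + x 2 ^ 2) (hV : V 0 * x 0 + V 1 * x 1 + V 2 * x 2 = 0)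
    (hc : |c| ≤ r1) :
    0 ≤ r1 / 2 * (∑ i, V i ^ 2) + c * t * (∑ i, V i * p i) +
      r1 / 4 * ∑ i, ∑ j, (x i * p j - x j * p i) ^ 2 := by
  have hel : ∀ k R : ℝ, 0 ≤ r1 / 2 * (k ^ 2 + R ^ 2) + c * (k * R) := by
    intro k R
    have h1 := abs_le.1 hc
    rcases le_total 0 (k * R) with h | h
    · nlinarith [mul_le_mul_of_nonneg_right h1.1 h, sq_nonneg (k - R), abs_nonneg c]
    · nlinarith [mul_le_mul_of_nonpos_right h1.2 h, sq_nonneg (k + R), abs_nonneg c]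
  have h01 := hel ((x 0 * V 1 - x 1 * V 0) / t) (x 0 * p 1 - x 1 * p 0)
  have h02 := hel ((x 0 * V 2 - x 2 * V 0) / t) (x 0 * p 2 - x 2 * p 0)
  have h12 := hel ((x 1 * V 2 - x 2 * V 1) / t) (x 1 * p 2 - x 2 * p 1)
  have e1 : ((x 0 * V 1 - x 1 * V 0) / t) ^ 2 + ((x 0 * V 2 - x 2 * V 0) / t) ^ 2 +
      ((x 1 * V 2 - x 2 * V 1) / t) ^ 2 = V 0 ^ 2 + V 1 ^ 2 + V 2 ^ 2 := by
    field_simp
    rw [hn]
    linear_combination (-(V 0 * x 0 + V 1 * x 1 + V 2 * x 2)) * hV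
  have e2 : ((x 0 * V 1 - x 1 * V 0) / t) * (x 0 * p 1 - x 1 * p 0) +
      ((x 0 * V 2 - x 2 * V 0) / t) * (x 0 * p 2 - x 2 * p 0) +
      ((x 1 * V 2 - x 2 * V 1) / t) * (x 1 * p 2 - x 2 * p 1) =
      t * (V 0 * p 0 + V 1 * p 1 + V 2 * p 2) := by
    field_simp
    rw [hn]
    linear_combination (-(p 0 * x 0 + p 1 * x 1 + p 2 * x 2)) * hV
  have e3 : r1 / 2 * (∑ i, V i ^ 2) + c * t * (∑ i, V i * p i) +
      r1 / 4 * ∑ i, ∑ j, (x i * p j - x j * p i) ^ 2 =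
      (r1 / 2 * (((x 0 * V 1 - x 1 * V 0) / t) ^ 2 + (x 0 * p 1 - x 1 * p 0) ^ 2) +
        c * (((x 0 * V 1 - x 1 * V 0) / t) * (x 0 * p 1 - x 1 * p 0))) +
      (r1 / 2 * (((x 0 * V 2 - x 2 * V 0) / t) ^ 2 + (x 0 * p 2 - x 2 * p 0) ^ 2) +
        c * (((x 0 * V 2 - x 2 * V 0) / t) * (x 0 * p 2 - x 2 * p 0))) +
      (r1 / 2 * (((x 1 * V 2 - x 2 * V 1) / t) ^ 2 + (x 1 * p 2 - x 2 * p 1) ^ 2) +
        c * (((x 1 * V 2 - x 2 * V 1) / t) * (x 1 * p 2 - x 2 * p 1))) := by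
    simp only [Fin.sum_univ_three]
    linear_combination (-(r1 / 2)) * e1 - c * e2
  rw [e3]
  positivity

end Pool.Agent.H921.QP
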