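import Pool.Agent.H921.QP.Ptw

/-!
# Quasi-spherical data: the derivative of the mass aspect
-/

set_option autoImplicit false

namespace Pool.Agent.H921.QP

open Filter Topology MeasureTheory Pool.Agent.N795.PI Pool.Agent.N774.PIA

variable {N : E3 → ℝ} {ρ : ℝ → ℝ} {h : Fin 3 → Fin 3 → E3 → ℝ} {m : ℝ}

/-- a unit vector -/
noncomputable def e0 : E3 := EuclideanSpace.single 0 1

lemma norm_e0 : ‖e0‖ = 1 := by simp [e0]

lemma norm_te0 {t : ℝ} (ht : 0 < t) : ‖t • e0‖ = t := by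
  rw [norm_smul, norm_e0, mul_one, Real.norm_eq_abs, abs_of_pos ht]

lemma te0_ne {t : ℝ} (ht : 0 < t) : t • e0 ≠ 0 := by
  rw [← norm_pos_iff, norm_te0 ht]
  exact ht

/-- half of the trace of `h` over the spheres times the lapse -/
noncomputable def bet (N : E3 → ℝ) (ρ : ℝ → ℝ) (h : Fin 3 → Fin 3 → E3 → ℝ) (t : ℝ) : ℝ :=
  N (t • e0) * trSph ρ h (t • e0) / 2

section
variable (D : IsQData N ρ h m)
include D

lemma IsQData.ten : SmoothTen h :=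
  ⟨D.symm, fun i j x hx => (D.smoothH i j x hx).of_le (by exact_mod_cast (le_top : (1 : ℕ∞) ≤ ⊤))⟩

lemma IsQData.cN {x : E3} (hx : x ≠ 0) : ContDiffAt ℝ 2 N x :=
  (D.smoothN x hx).of_le (show ((2 : ℕ∞) : WithTop ℕ∞) ≤ ((⊤ : ℕ∞) : WithTop ℕ∞) from WithTop.coe_le_coe.2 le_top)

lemma IsQData.cR {t : ℝ} (ht : 0 < t) : ContDiffAt ℝ 2 ρ t :=
  (D.smoothR t ht).of_le (show ((2 : ℕ∞) : WithTop ℕ∞) ≤ ((⊤ : ℕ∞) : WithTop ℕ∞) from WithTop.coe_le_coe.2 le_top)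

lemma IsQData.cdR {t : ℝ} (ht : 0 < t) : ContDiffAt ℝ 1 (deriv ρ) t := by
  have h1 : ContDiffAt ℝ 1 (fderiv ℝ ρ) t := (D.cR ht).fderiv_right (by norm_num)
  have h2 : ContDiffAt ℝ 1 (fun s => fderiv ℝ ρ s 1) t := h1.clm_apply contDiffAt_const
  exact h2

lemma IsQData.hR {t : ℝ} (ht : 0 < t) : HasDerivAt ρ (deriv ρ t) t :=
  ((D.cR ht).differentiableAt (by norm_num)).hasDerivAt

lemma IsQData.hdR {t : ℝ} (ht : 0 < t) : HasDerivAt (deriv ρ) (deriv (deriv ρ) t) t :=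
  ((D.cdR ht).differentiableAt (by norm_num)).hasDerivAt

lemma IsQData.cRn {x : E3} (hx : x ≠ 0) : ContDiffAt ℝ 1 (fun y : E3 => ρ ‖y‖) x :=
  ((D.cR (norm_pos_iff.2 hx)).of_le (by norm_num)).comp x (contDiffAt_norm ℝ hx)

lemma IsQData.cdRn {x : E3} (hx : x ≠ 0) : ContDiffAt ℝ 1 (fun y : E3 => deriv ρ ‖y‖) x :=
  (D.cdR (norm_pos_iff.2 hx)).comp x (contDiffAt_norm ℝ hx)

lemma IsQData.ctr {x : E3} (hx : x ≠ 0) : ContDiffAt ℝ 1 (trSph ρ h) x := by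
  have h1 : ContDiffAt ℝ 1 (fun y : E3 => (‖y‖ / ρ ‖y‖) ^ 2) x :=
    ((contDiffAt_norm ℝ hx).div (D.cRn hx) (D.posR _ (norm_pos_iff.2 hx)).ne').pow 2
  exact h1.mul ((cd_trE D.ten hx).sub (cd_lam D.ten hx))

lemma IsQData.cH {x : E3} (hx : x ≠ 0) : ContDiffAt ℝ 1 (Hs N ρ) x := by
  have h1 : ContDiffAt ℝ 1 (fun y : E3 => 2 * deriv ρ ‖y‖) x := contDiffAt_const.mul (D.cdRn hx)
  have h2 : ContDiffAt ℝ 1 (fun y : E3 => ρ ‖y‖ * N y) x :=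
    (D.cRn hx).mul ((D.cN hx).of_le (by norm_num))
  exact h1.div h2 (mul_pos (D.posR _ (norm_pos_iff.2 hx)) (D.posN x hx)).ne'

lemma IsQData.dN {x : E3} (hx : x ≠ 0) : DifferentiableAt ℝ N x :=
  (D.cN hx).differentiableAt (by norm_num)

/-- the ray through a point -/
lemma IsQData.ray_norm {x : E3} (hx : x ≠ 0) {s : ℝ} (hs : 0 < s) : ‖(s / ‖x‖) • x‖ = s := by
  have hn := norm_pos_iff.2 hx
  rw [norm_smul, Real.norm_eq_abs, abs_of_pos (div_pos hs hn), div_mul_cancel₀ _ hn.ne']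

lemma IsQData.ray_ne {x : E3} (hx : x ≠ 0) {s : ℝ} (hs : 0 < s) : (s / ‖x‖) • x ≠ 0 :=
  smul_ne_zero (div_pos hs (norm_pos_iff.2 hx)).ne' hx

lemma IsQData.tr_eq_bet {x : E3} (hx : x ≠ 0) : trSph ρ h x = 2 * bet N ρ h ‖x‖ / N x := by
  have hn := norm_pos_iff.2 hx
  have h1 := D.unif x (‖x‖ • e0) hx (norm_te0 hn).symm
  rw [bet, eq_div_iff (D.posN x hx).ne']
  linarith

lemma IsQData.hbet {t : ℝ} (ht : 0 < t) : HasDerivAt (bet N ρ h) (deriv (bet N ρ h) t) t := by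
  have hx := te0_ne ht
  have h1 := ray_deriv hx (D.dN hx)
  have h2 := ray_deriv hx ((D.ctr hx).differentiableAt (by norm_num))
  rw [norm_te0 ht] at h1 h2
  have h3 : ∀ s : ℝ, (s / t) • t • e0 = s • e0 := by
    intro s
    rw [smul_smul, div_mul_cancel₀ _ ht.ne']
  simp only [h3] at h1 h2
  exact ((h1.mul h2).div_const 2).differentiableAt.hasDerivAt

lemma IsQData.drH {x : E3} (hx : x ≠ 0) : dr (Hs N ρ) x =
    2 * (deriv (deriv ρ) ‖x‖ * ρ ‖x‖ - deriv ρ ‖x‖ ^ 2) / (ρ ‖x‖ ^ 2 * N x)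
      - 2 * deriv ρ ‖x‖ * dr N x / (ρ ‖x‖ * N x ^ 2) := by
  have hn := norm_pos_iff.2 hx
  have hr := (D.posR _ hn).ne'
  have hN := (D.posN x hx).ne'
  have h1 := ray_deriv hx ((D.cH hx).differentiableAt (by norm_num))
  have h2 := ray_deriv hx (D.dN hx)
  have h3 : HasDerivAt (fun s : ℝ => 2 * deriv ρ s / (ρ s * N ((s / ‖x‖) • x)))
      ((2 * deriv (deriv ρ) ‖x‖ * (ρ ‖x‖ * N ((‖x‖ / ‖x‖) • x)) - 2 * deriv ρ ‖x‖ *
        (deriv ρ ‖x‖ * N ((‖x‖ / ‖x‖) • x) + ρ ‖x‖ * dr N x)) /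
        (ρ ‖x‖ * N ((‖x‖ / ‖x‖) • x)) ^ 2) ‖x‖ := by
    refine ((D.hdR hn).const_mul 2).div ((D.hR hn).mul h2) ?_
    rw [div_self hn.ne', one_smul]
    exact mul_ne_zero hr hN
  have h4 : (fun s : ℝ => Hs N ρ ((s / ‖x‖) • x)) =ᶠ[𝓝 ‖x‖]
      fun s : ℝ => 2 * deriv ρ s / (ρ s * N ((s / ‖x‖) • x)) := by
    filter_upwards [lt_mem_nhds hn] with s hs
    rw [Hs, D.ray_norm hx hs]
  have h5 := h1.congr_of_eventuallyEq h4.symm
  have h6 := h5.unique h3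
  rw [h6, div_self hn.ne', one_smul]
  field_simp
  ring

lemma IsQData.drtr {x : E3} (hx : x ≠ 0) : dr (trSph ρ h) x =
    2 * deriv (bet N ρ h) ‖x‖ / N x - 2 * bet N ρ h ‖x‖ * dr N x / N x ^ 2 := by
  have hn := norm_pos_iff.2 hx
  have hN := (D.posN x hx).ne'
  have h1 := ray_deriv hx ((D.ctr hx).differentiableAt (by norm_num))
  have h2 := ray_deriv hx (D.dN hx)
  have h3 : HasDerivAt (fun s : ℝ => 2 * bet N ρ h s / N ((s / ‖x‖) • x))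
      ((2 * deriv (bet N ρ h) ‖x‖ * N ((‖x‖ / ‖x‖) • x) - 2 * bet N ρ h ‖x‖ * dr N x) /
        N ((‖x‖ / ‖x‖) • x) ^ 2) ‖x‖ := by
    refine ((D.hbet hn).const_mul 2).div h2 ?_
    rw [div_self hn.ne', one_smul]
    exact hN
  have h4 : (fun s : ℝ => trSph ρ h ((s / ‖x‖) • x)) =ᶠ[𝓝 ‖x‖]
      fun s : ℝ => 2 * bet N ρ h s / N ((s / ‖x‖) • x) := by
    filter_upwards [lt_mem_nhds hn] with s hs
    rw [D.tr_eq_bet (D.ray_ne hx hs), D.ray_norm hx hs]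
  have h5 := h1.congr_of_eventuallyEq h4.symm
  have h6 := h5.unique h3
  rw [h6, div_self hn.ne', one_smul]
  field_simp

end

end Pool.Agent.H921.QP
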