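import Pool.Agent.H921.QP.Ptw2

/-!
# Quasi-spherical data: the pointwise inequality
-/

set_option autoImplicit false

namespace Pool.Agent.H921.QP

open Filter Topology MeasureTheory Pool.Agent.N795.PI Pool.Agent.N774.PIA

variable {N : E3 → ℝ} {ρ : ℝ → ℝ} {h : Fin 3 → Fin 3 → E3 → ℝ} {m : ℝ}

/-- the radial derivative of the mass aspect -/
noncomputable def Gf (N : E3 → ℝ) (ρ : ℝ → ℝ) (b : ℝ → ℝ) (x : E3) : ℝ :=
  deriv ρ ‖x‖ / 2 * (1 - (deriv ρ ‖x‖ ^ 2 - ρ ‖x‖ ^ 2 * b ‖x‖ ^ 2) / N x ^ 2)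
    - ρ ‖x‖ / 2 * (2 * deriv ρ ‖x‖ * deriv (deriv ρ) ‖x‖ - 2 * ρ ‖x‖ * deriv ρ ‖x‖ * b ‖x‖ ^ 2
      - 2 * ρ ‖x‖ ^ 2 * b ‖x‖ * deriv b ‖x‖) / N x ^ 2
    + ρ ‖x‖ * (deriv ρ ‖x‖ ^ 2 - ρ ‖x‖ ^ 2 * b ‖x‖ ^ 2) * dr N x / N x ^ 3

/-- the divergence part -/
noncomputable def dv (N : E3 → ℝ) (h : Fin 3 → Fin 3 → E3 → ℝ) (x : E3) : ℝ :=
  ∑ i, pd i (fun y => tanV h i y / N y) x

/-- the part which is a sum of derivatives along rotations -/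
noncomputable def rr (N : E3 → ℝ) (x : E3) : ℝ :=
  ∑ i, ∑ j, rot i j (fun y => rot i j N y / N y) x

lemma ident (r r1 r2 b b1 N N1 hn L D : ℝ) (hr : r ≠ 0) (hN : N ≠ 0) :
  r1/2*(1-(r1^2-r^2*b^2)/N^2) - r/2*(2*r1*r2-2*r*r1*b^2-2*r^2*b*b1)/N^2 + r*(r1^2-r^2*b^2)*N1/N^3
  = r^2*r1/4*((2/r^2 - 3/2*(2*r1/(r*N))^2 - 2/N*(2*(r2*r-r1^2)/(r^2*N) - 2*r1*N1/(r*N^2)) - 2*L/(N*r^2))+4*hn*b/N+2*b^2/N^2)
    - r^3*b/2*((2*r1/(r*N))*(hn - (2*b/N)/2) - (2*b1/N - 2*b*N1/N^2)/N + D) + r^3*b/2*D + r1/2*L/N := by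
  field_simp
  ring

section
variable (D : IsQData N ρ h m)
include D

lemma IsQData.drot {x : E3} (hx : x ≠ 0) (i j : Fin 3) : ContDiffAt ℝ 1 (rot i j N) x := by
  have h1 : ∀ k : Fin 3, ContDiffAt ℝ 1 (pd k N) x := by
    intro k
    have h2 : ContDiffAt ℝ 1 (fderiv ℝ N) x := (D.cN hx).fderiv_right (by norm_num)
    exact h2.clm_apply contDiffAt_const
  exact ((co i x).mul (h1 j)).sub ((co j x).mul (h1 i))

lemma IsQData.lap_eq {x : E3} (hx : x ≠ 0) : lapS N x / N x =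
    1 / 2 * rr N x + 1 / 2 * (∑ i, ∑ j, (x i * pd j N x - x j * pd i N x) ^ 2) / N x ^ 2 := by
  have hN := (D.posN x hx).ne'
  have h1 : ∀ i j, rot i j (fun y => rot i j N y / N y) x =
      rot i j (rot i j N) x / N x - (x i * pd j N x - x j * pd i N x) ^ 2 / N x ^ 2 := by
    intro i j
    rw [rot_div' ((D.drot hx i j).differentiableAt (by norm_num)) (D.dN hx) hN]
    have h2 : rot i j N x = x i * pd j N x - x j * pd i N x := rfl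
    rw [h2]
    ring
  unfold rr lapS
  simp only [h1, Finset.sum_sub_distrib, ← Finset.sum_div]
  ring

lemma IsQData.div_eq {x : E3} (hx : x ≠ 0) :
    (∑ i, pd i (fun y => N y * tanV h i y) x) / N x ^ 2 =
      dv N h x + 2 * (∑ i, tanV h i x * pd i N x) / N x ^ 2 := by
  have hN := (D.posN x hx).ne'
  have hV : ∀ i, DifferentiableAt ℝ (tanV h i) x := fun i =>
    (cd_tanV D.ten i hx).differentiableAt (by norm_num)
  unfold dv
  have h1 : ∀ i, pd i (fun y => N y * tanV h i y) x = pd i N x * tanV h i x +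
      N x * pd i (tanV h i) x := fun i => pd_mul' (D.dN hx) (hV i) i
  have h2 : ∀ i, pd i (fun y => tanV h i y / N y) x = pd i (tanV h i) x / N x -
      tanV h i x * pd i N x / N x ^ 2 := fun i => pd_div' (hV i) (D.dN hx) hN i
  simp only [h1, h2, Fin.sum_univ_three]
  field_simp
  ring

/-- The pointwise inequality. -/
theorem IsQData.ptw {x : E3} (hx : x ≠ 0)
    (hw : ρ ‖x‖ * |bet N ρ h ‖x‖| ≤ deriv ρ ‖x‖) :
    ρ ‖x‖ * bet N ρ h ‖x‖ * ‖x‖ / 2 * dv N h x + deriv ρ ‖x‖ / 4 * rr N x ≤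
      Gf N ρ (bet N ρ h) x := by
  have hn := norm_pos_iff.2 hx
  have hr := D.posR _ hn
  have hN := D.posN x hx
  have hb := D.dec x hx
  have hnsq := nsq_ge D.symm hx hN.ne' hr.ne'
  have hlap := D.lap_eq hx
  have hdiv := D.div_eq hx
  have hH : Hs N ρ x = 2 * deriv ρ ‖x‖ / (ρ ‖x‖ * N x) := rfl
  have htr := D.tr_eq_bet hx
  have hdH := D.drH hx
  have hdt := D.drtr hx
  have hvx : tanV h 0 x * x 0 + tanV h 1 x * x 1 + tanV h 2 x * x 2 = 0 := by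
    have := tanV_orth (h := h) hx
    rwa [Fin.sum_univ_three] at this
  have hq := quad_pos (fun i => pd i N x) (fun i => tanV h i x) (fun i => x i) ‖x‖ (deriv ρ ‖x‖)
    (ρ ‖x‖ * bet N ρ h ‖x‖) hn (norm_sq3 x) hvx (by
      rw [abs_mul, abs_of_pos hr]
      exact hw)
  simp only at hq
  have hmu : 2 * muQ N ρ h x = scalQ N ρ x - nsq N ρ h x + trQ N ρ h x ^ 2 := by
    rw [muQ]
    ring
  have hJ : Jnu N ρ h x = Hs N ρ x * (hnu N h x - trSph ρ h x / 2) - dr (trSph ρ h) x / N x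
    + dQ N ρ h x := rfl
  have hsc : scalQ N ρ x = 2 / ρ ‖x‖ ^ 2 - 3 / 2 * Hs N ρ x ^ 2 - 2 / N x * dr (Hs N ρ) x
    - 2 * lapS N x / (N x * ρ ‖x‖ ^ 2) := rfl
  have hdQ : dQ N ρ h x = ‖x‖ / ρ ‖x‖ ^ 2 *
      ((∑ i, pd i (fun y => N y * tanV h i y) x) / N x ^ 2) := by
    rw [dQ]
    field_simp
  rw [hdiv] at hdQ
  rw [tr_eq] at hmu
  rw [htr] at hmu hJ hnsq
  rw [hdt, hH] at hJ
  rw [hdH, hH] at hsc
  have hid := ident (ρ ‖x‖) (deriv ρ ‖x‖) (deriv (deriv ρ) ‖x‖) (bet N ρ h ‖x‖)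
    (deriv (bet N ρ h) ‖x‖) (N x) (dr N x) (hnu N h x) (lapS N x) (dQ N ρ h x) hr.ne' hN.ne'
  rw [← hJ, ← hsc] at hid
  have hG : Gf N ρ (bet N ρ h) x = _ := hid
  rw [hG]
  set r := ρ ‖x‖ with hrdef
  set r1 := deriv ρ ‖x‖ with hr1def
  set b := bet N ρ h ‖x‖ with hbdef
  set M := muQ N ρ h x with hMdef
  set Jn := Jnu N ρ h x with hJdef
  set VV := ∑ i, tanV h i x ^ 2 with hVV
  set VP := ∑ i, tanV h i x * pd i N x with hVP
  set RR := ∑ i, ∑ j, (x i * pd j N x - x j * pd i N x) ^ 2 with hRR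
  have hr1 : 0 ≤ r1 := le_trans (by positivity) hw
  have e1 : 2 * M + 2 * VV / (r ^ 2 * N x ^ 2) ≤
      scalQ N ρ x + 4 * hnu N h x * b / N x + 2 * b ^ 2 / N x ^ 2 := by
    have h1 : (hnu N h x + 2 * b / N x) ^ 2 = hnu N h x ^ 2 + 4 * hnu N h x * b / N x
        + 4 * b ^ 2 / N x ^ 2 := by
      field_simp
      ring
    have h2 : (2 * b / N x) ^ 2 / 2 = 2 * b ^ 2 / N x ^ 2 := by
      field_simp
    rw [h2] at hnsq
    rw [h1] at hmu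
    have h3 : 4 * b ^ 2 / N x ^ 2 = 2 * b ^ 2 / N x ^ 2 + 2 * b ^ 2 / N x ^ 2 := by ring
    linarith
  have e2 := mul_le_mul_of_nonneg_left e1 (show 0 ≤ r ^ 2 * r1 / 4 by positivity)
  have e3 : r ^ 3 * b / 2 * Jn ≤ r ^ 2 * r1 / 2 * M := by
    have h1 : b * Jn ≤ |b| * M := by
      calc b * Jn ≤ |b * Jn| := le_abs_self _
        _ = |b| * |Jn| := abs_mul _ _
        _ ≤ |b| * M := mul_le_mul_of_nonneg_left hb (abs_nonneg _)
    have hM : 0 ≤ M := le_trans (abs_nonneg _) hb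
    have h2 : r * |b| * M ≤ r1 * M := mul_le_mul_of_nonneg_right hw hM
    have h3 : r ^ 3 * b / 2 * Jn = r ^ 2 / 2 * (r * (b * Jn)) := by ring
    have h4 : r * (b * Jn) ≤ r1 * M := by
      calc r * (b * Jn) ≤ r * (|b| * M) := mul_le_mul_of_nonneg_left h1 hr.le
        _ = r * |b| * M := by ring
        _ ≤ r1 * M := h2
    rw [h3]
    calc r ^ 2 / 2 * (r * (b * Jn)) ≤ r ^ 2 / 2 * (r1 * M) :=
          mul_le_mul_of_nonneg_left h4 (by positivity)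
      _ = r ^ 2 * r1 / 2 * M := by ring
  have e4 : r ^ 3 * b / 2 * dQ N ρ h x = r * b * ‖x‖ / 2 * dv N h x +
      r * b * ‖x‖ * VP / N x ^ 2 := by
    rw [hdQ]
    field_simp
  have e5 : r1 / 2 * lapS N x / N x = r1 / 4 * rr N x + r1 / 4 * RR / N x ^ 2 := by
    rw [mul_div_assoc, hlap]
    ring
  have e6 : r ^ 2 * r1 / 4 * (2 * M + 2 * VV / (r ^ 2 * N x ^ 2)) =
      r ^ 2 * r1 / 2 * M + r1 / 2 * VV / N x ^ 2 := by
    field_simp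
    ring
  have e7 : 0 ≤ (r1 / 2 * VV + r * b * ‖x‖ * VP + r1 / 4 * RR) / N x ^ 2 :=
    div_nonneg hq (by positivity)
  have e8 : (r1 / 2 * VV + r * b * ‖x‖ * VP + r1 / 4 * RR) / N x ^ 2 =
      r1 / 2 * VV / N x ^ 2 + r * b * ‖x‖ * VP / N x ^ 2 + r1 / 4 * RR / N x ^ 2 := by ring
  rw [e4, e5]
  rw [e6] at e2
  rw [e8] at e7
  linarith

end

end Pool.Agent.H921.QP
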